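import Pool.Agent.H24.VP.Pos
import Pool.Agent.H24.TV.GDef
import Pool.Agent.H24.VP.Two

/-!
# [H39 TQ Def] THEOREM Q (MP_e49dc9_ag): definitions

`A` ample, `D` any divisor, `s` the nef threshold of `D` with respect to `A` (the infimum of the `a / b`, `b ≥ 1`, with
`a A + b D` ample), `p := D + s A`, a point of the boundary of the nef cone.

* `tp T A D s U V = T(p,U,V)`, `tpp T A D s U = T(p,p,U)`, `tp3 T A D s = T(p,p,p)`.
* `lp l A D s = l(p)`.
* `Thr T l c A D s`: the standing hypotheses: the theorem of Riemann-Roch `RR T l c`, `A` is ample, `l` is positive on the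
  ample divisors, `s` is irrational, `a A + b D` (`b ≥ 1`) is ample if and only if `s b < a`, and `T(p,p,p) = 0`.
* `Pfam T C`: prime divisors `C 0, C 1, ..` (different), all numerically equal.
* `Exc T A D s`: the exception: such a family with `T(G, C i, C j) = 0` for all `i`, `j` and `G`, and `T(p,p,C i) = 0`.

Every `W = A ^ a * D ^ b` is `b p + e A` with `e = a - s b`.
-/

set_option autoImplicit false

namespace Pool.Agent.H39.TQ

open Pool.Agent.H54.RV Pool.Agent.H83.TU Pool.Agent.H83.TK Pool.Agent.H24.VP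

variable {k K : Type} [Field k] [Field K] [Algebra k K] {X : Mod k K}

/-- `T(p,U,V)` -/
noncomputable def tp (T : Cart X → Cart X → Cart X → ℝ) (A D : Cart X) (s : ℝ) (U V : Cart X) : ℝ :=
  T D U V + s * T A U V

/-- `T(p,p,U)` -/
noncomputable def tpp (T : Cart X → Cart X → Cart X → ℝ) (A D : Cart X) (s : ℝ) (U : Cart X) : ℝ :=
  T D D U + 2 * s * T A D U + s ^ 2 * T A A U

/-- `T(p,p,p)` -/
noncomputable def tp3 (T : Cart X → Cart X → Cart X → ℝ) (A D : Cart X) (s : ℝ) : ℝ :=
  T D D D + 3 * s * T A D D + 3 * s ^ 2 * T A A D + s ^ 3 * T A A A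

/-- `l(p)` -/
noncomputable def lp (l : Cart X → ℝ) (A D : Cart X) (s : ℝ) : ℝ := l D + s * l A

/-- the threshold: `a A + b D` with `b ≥ 1` is ample if and only if `s b < a`; `s` is irrational -/
structure Ths (A D : Cart X) (s : ℝ) : Prop where
  hA : Ample A
  irr : Irrational s
  amp : ∀ a b : ℤ, 0 < b → s * b < a → Ample (A ^ a * D ^ b)
  out : ∀ a b : ℤ, 0 < b → (a : ℝ) < s * b → ¬ Ample (A ^ a * D ^ b)

/-- the standing hypotheses -/
structure Thr (T : Cart X → Cart X → Cart X → ℝ) (l : Cart X → ℝ) (c : ℝ) (A D : Cart X) (s : ℝ) : Prop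
    extends Ths A D s where
  hr : RR T l c
  lpos : ∀ B, Ample B → 0 < l B
  p3 : tp3 T A D s = 0

/-- infinitely many numerically equal prime divisors -/
structure Pfam (T : Cart X → Cart X → Cart X → ℝ) (C : ℕ → Cart X) : Prop where
  prm : ∃ P : ℕ → PDiv X, (∀ i j, (P i).η = (P j).η → i = j) ∧ ∀ i, SPr X (P i).η (C i)
  num : ∀ i U V, T (C i) U V = T (C 0) U V

/-- the exception: the fibres `C i` of a fibration over a curve, with `T(p,p,C i) = 0` -/
def Exc (T : Cart X → Cart X → Cart X → ℝ) (A D : Cart X) (s : ℝ) : Prop :=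
  ∃ C : ℕ → Cart X, Pfam T C ∧ (∀ i j G, T G (C i) (C j) = 0) ∧ ∀ i, tpp T A D s (C i) = 0

end Pool.Agent.H39.TQ
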