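import Pool.Agent.H39.TQ.Def

/-!
# [H39 TQ Wab] THEOREM Q (MP_e49dc9_ag): the intersection numbers of `W = A ^ a * D ^ b = b p + e A`, `e = a - s b`
-/

set_option autoImplicit false

namespace Pool.Agent.H39.TQ

open Pool.Agent.H54.RV Pool.Agent.H83.TU Pool.Agent.H83.TK Pool.Agent.H24.VP

variable {k K : Type} [Field k] [Field K] [Algebra k K] {X : Mod k K}
  {T : Cart X → Cart X → Cart X → ℝ} {l : Cart X → ℝ} {c : ℝ} {A D : Cart X}

theorem w_T (ht : Tri T) (s : ℝ) (a b : ℤ) (U V : Cart X) :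
    T (A ^ a * D ^ b) U V = b * tp T A D s U V + (a - s * b) * T A U V := by
  rw [ht.add, ht.zpow, ht.zpow]
  unfold tp
  ring

theorem w_TT (ht : Tri T) (s : ℝ) (a b : ℤ) (U : Cart X) :
    T (A ^ a * D ^ b) (A ^ a * D ^ b) U =
      (b : ℝ) ^ 2 * tpp T A D s U + 2 * b * (a - s * b) * tp T A D s A U + (a - s * b) ^ 2 * T A A U := by
  simp only [ht.add, ht.add2, ht.zpow, ht.zpow2]
  rw [ht.s12 D A U]
  unfold tpp tp
  rw [ht.s12 D A U]
  ring

theorem w_TTT (ht : Tri T) (s : ℝ) (a b : ℤ) :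
    T (A ^ a * D ^ b) (A ^ a * D ^ b) (A ^ a * D ^ b) =
      (b : ℝ) ^ 3 * tp3 T A D s + 3 * (b : ℝ) ^ 2 * (a - s * b) * tpp T A D s A +
        3 * b * (a - s * b) ^ 2 * tp T A D s A A + (a - s * b) ^ 3 * T A A A := by
  simp only [ht.add, ht.add2, ht.add3, ht.zpow, ht.zpow2, ht.zpow3]
  have e1 : T D A A = T A A D := by rw [ht.s12, ht.s23]
  have e2 : T A D A = T A A D := ht.s23 _ _ _
  have e3 : T D A D = T A D D := ht.s12 _ _ _
  have e4 : T D D A = T A D D := by rw [ht.s23, ht.s12]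
  unfold tpp tp tp3
  rw [e1, e2, e3, e4]
  ring

theorem w_l (hr : RR T l c) (s : ℝ) (a b : ℤ) :
    l (A ^ a * D ^ b) = b * lp l A D s + (a - s * b) * l A := by
  have h1 : ∀ (B : Cart X) (n : ℤ), l (B ^ n) = n * l B := by
    intro B n
    obtain ⟨f, hf⟩ := hr.lhom
    rw [← hf, ← hf, map_zpow, toAdd_zpow, zsmul_eq_mul]
  rw [hr.ladd, h1, h1]
  unfold lp
  ring

theorem w_chi (hr : RR T l c) (s : ℝ) (h3 : tp3 T A D s = 0) (a b : ℤ) :
    chi T l c (A ^ a * D ^ b) = (b : ℝ) * (b * (a - s * b)) * tpp T A D s A / 2 +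
        (b * (a - s * b)) * (a - s * b) * tp T A D s A A / 2 + (a - s * b) ^ 3 * T A A A / 6 +
        (b * lp l A D s + (a - s * b) * l A) + c := by
  unfold chi
  rw [w_TTT hr.tri s, w_l hr s, h3]
  ring

theorem w_vol [CharZero k] (hr : RR T l c) (s : ℝ) (h3 : tp3 T A D s = 0) (a b : ℤ)
    (hW : Ample (A ^ a * D ^ b)) :
    vol (A ^ a * D ^ b) = (b : ℝ) * (b * (a - s * b)) * tpp T A D s A / 2 +
        (b * (a - s * b)) * (a - s * b) * tp T A D s A A / 2 + (a - s * b) ^ 3 * T A A A / 6 := by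
  rw [vol_eq hr hW, w_TTT hr.tri s, h3]
  ring

end Pool.Agent.H39.TQ
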