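import Pool.Agent.H39.TQ.Itf
import Pool.Agent.H39.TQ.Wab

/-!
# [H39 TQ Nn] THEOREM Q (MP_e49dc9_ag): `p` is a limit of ample classes

`near`: ample `W = A ^ a * D ^ n` with `0 < a - s n ≤ 1`.  `tp_nn`, `tpp_nn`, `tp3_nn`.
-/

set_option autoImplicit false

namespace Pool.Agent.H39.TQ

open Pool.Agent.H54.RV Pool.Agent.H83.TU Pool.Agent.H83.TK Pool.Agent.H24.VP

variable {k K : Type} [Field k] [Field K] [Algebra k K] {X : Mod k K}
  {T : Cart X → Cart X → Cart X → ℝ} {l : Cart X → ℝ} {c : ℝ} {A D : Cart X} {s : ℝ}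

theorem near (ht : Ths A D s) {n : ℕ} (hn : 1 ≤ n) :
    ∃ a : ℤ, 0 < a - s * ((n : ℤ) : ℝ) ∧ a - s * ((n : ℤ) : ℝ) ≤ 1 ∧ Ample (A ^ a * D ^ (n : ℤ)) := by
  have h1 := Int.lt_floor_add_one (s * ((n : ℤ) : ℝ))
  have h2 := Int.floor_le (s * ((n : ℤ) : ℝ))
  refine ⟨⌊s * ((n : ℤ) : ℝ)⌋ + 1, ?_, ?_, ht.amp _ _ (by omega) ?_⟩
  · push_cast at h1 ⊢
    linarith
  · push_cast at h2 ⊢
    linarith
  · push_cast at h1 ⊢
    linarith

/-- `0 ≤ x + M / n` for all `n` implies `0 ≤ x` -/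
private theorem lim_nn {x M : ℝ} (h : ∀ n : ℕ, 1 ≤ n → 0 ≤ n * x + M) : 0 ≤ x := by
  by_contra hx
  push Not at hx
  obtain ⟨n, hn⟩ := exists_nat_gt (max 1 (M / -x))
  have h1 : (1 : ℝ) < n := (le_max_left _ _).trans_lt hn
  have h2 := (le_max_right _ _).trans_lt hn
  rw [div_lt_iff₀ (by linarith)] at h2
  have h3 := h n (by exact_mod_cast h1.le)
  linarith

theorem tp_nn (ht : Ths A D s) (h3 : Tri T) (U V : Cart X) (h : ∀ B, Ample B → 0 ≤ T B U V) :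
    0 ≤ tp T A D s U V := by
  refine lim_nn (M := |T A U V|) fun n hn => ?_
  obtain ⟨a, h1, h2, hW⟩ := near ht hn
  have h4 := h _ hW
  rw [w_T h3 s] at h4
  push_cast at h1 h2 h4
  have h5 : (a - s * n) * T A U V ≤ |T A U V| := by
    refine (le_abs_self _).trans ?_
    rw [abs_mul, abs_of_pos h1]
    exact mul_le_of_le_one_left (abs_nonneg _) h2
  linarith

theorem tpp_nn (ht : Ths A D s) (h3 : Tri T) (U : Cart X) (h : ∀ B, Ample B → 0 ≤ T B B U) :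
    0 ≤ tpp T A D s U := by
  refine lim_nn (M := 2 * |tp T A D s A U| + |T A A U|) fun n hn => ?_
  obtain ⟨a, h1, h2, hW⟩ := near ht hn
  have h4 := h _ hW
  rw [w_TT h3 s] at h4
  have hn' : (1 : ℝ) ≤ n := by exact_mod_cast hn
  have hn0 : (0 : ℝ) < n := by linarith
  push_cast at h1 h2 h4
  obtain ⟨e, he⟩ : ∃ e, e = a - s * (n : ℝ) := ⟨_, rfl⟩
  rw [← he] at h1 h2 h4
  have h5 : e * tp T A D s A U ≤ |tp T A D s A U| := by
    refine (le_abs_self _).trans ?_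
    rw [abs_mul, abs_of_pos h1]
    exact mul_le_of_le_one_left (abs_nonneg _) h2
  have h6 : e ^ 2 * T A A U ≤ n * |T A A U| := by
    refine (le_abs_self _).trans ?_
    rw [abs_mul, abs_of_pos (by positivity : (0 : ℝ) < e ^ 2)]
    refine (mul_le_of_le_one_left (abs_nonneg _) (pow_le_one₀ h1.le h2)).trans ?_
    exact le_mul_of_one_le_left (abs_nonneg _) hn'
  have h7 : 2 * n * e * tp T A D s A U ≤ n * (2 * |tp T A D s A U|) := by
    have := mul_le_mul_of_nonneg_left h5 (by positivity : (0 : ℝ) ≤ 2 * n)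
    nlinarith
  have h8 : 0 ≤ (n : ℝ) * (n * tpp T A D s U + (2 * |tp T A D s A U| + |T A A U|)) := by nlinarith
  exact nonneg_of_mul_nonneg_right h8 hn0

theorem tp3_nn (ht : Ths A D s) (h3 : Tri T) (h : ∀ B, Ample B → 0 ≤ T B B B) : 0 ≤ tp3 T A D s := by
  refine lim_nn (M := 3 * |tpp T A D s A| + 3 * |tp T A D s A A| + |T A A A|) fun n hn => ?_
  obtain ⟨a, h1, h2, hW⟩ := near ht hn
  have h4 := h _ hW
  rw [w_TTT h3 s] at h4
  have hn' : (1 : ℝ) ≤ n := by exact_mod_cast hn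
  have hn0 : (0 : ℝ) < n := by linarith
  push_cast at h1 h2 h4
  obtain ⟨e, he⟩ : ∃ e, e = a - s * (n : ℝ) := ⟨_, rfl⟩
  rw [← he] at h1 h2 h4
  have h5 : e * tpp T A D s A ≤ |tpp T A D s A| := by
    refine (le_abs_self _).trans ?_
    rw [abs_mul, abs_of_pos h1]
    exact mul_le_of_le_one_left (abs_nonneg _) h2
  have h6 : e ^ 2 * tp T A D s A A ≤ n * |tp T A D s A A| := by
    refine (le_abs_self _).trans ?_
    rw [abs_mul, abs_of_pos (by positivity : (0 : ℝ) < e ^ 2)]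
    refine (mul_le_of_le_one_left (abs_nonneg _) (pow_le_one₀ h1.le h2)).trans ?_
    exact le_mul_of_one_le_left (abs_nonneg _) hn'
  have h7 : e ^ 3 * T A A A ≤ (n : ℝ) ^ 2 * |T A A A| := by
    refine (le_abs_self _).trans ?_
    rw [abs_mul, abs_of_pos (by positivity : (0 : ℝ) < e ^ 3)]
    refine (mul_le_of_le_one_left (abs_nonneg _) (pow_le_one₀ h1.le h2)).trans ?_
    exact le_mul_of_one_le_left (abs_nonneg _) (one_le_pow₀ hn')
  have h8 : 3 * (n : ℝ) ^ 2 * e * tpp T A D s A ≤ (n : ℝ) ^ 2 * (3 * |tpp T A D s A|) := by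
    have := mul_le_mul_of_nonneg_left h5 (by positivity : (0 : ℝ) ≤ 3 * (n : ℝ) ^ 2)
    nlinarith
  have h9 : 3 * (n : ℝ) * e ^ 2 * tp T A D s A A ≤ (n : ℝ) ^ 2 * (3 * |tp T A D s A A|) := by
    have := mul_le_mul_of_nonneg_left h6 (by positivity : (0 : ℝ) ≤ 3 * (n : ℝ))
    nlinarith
  have h10 : 0 ≤ (n : ℝ) ^ 2 * (n * tp3 T A D s + (3 * |tpp T A D s A| + 3 * |tp T A D s A A| + |T A A A|)) := by
    nlinarith
  exact nonneg_of_mul_nonneg_right h10 (by positivity)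

end Pool.Agent.H39.TQ
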