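import Pool.Agent.H39.TQ.Def

/-!
# [H39 TQ Itf] THEOREM Q (MP_e49dc9_ag): the statements which connect the chapters

Notation: `W = A ^ a * D ^ b`, `e = a - s b`.

* `VolB X`, `FldB hX hg`: chapter (4), Theorem I with `m ^ 2 ≤ c h0`.
* `PrmB T`: chapters (6) and (7): two different fields `F`, `F'`.
* `LowQ`: chapter (1), the lower bound on both sides of `p`; `WrgQ`: chapter (2).
* `StrQ`: chapter (3); `FinQ`: chapter (8).
-/

set_option autoImplicit false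

namespace Pool.Agent.H39.TQ

open Pool.Agent.H54.RV Pool.Agent.H83.TU Pool.Agent.H83.TK Pool.Agent.H24.VP Pool.Agent.H24.TV

variable {k K : Type} [Field k] [Field K] [Algebra k K]

/-- `F` is algebraically closed in `K` -/
def Clo (F : IntermediateField k K) : Prop := ∀ x : K, IsAlgebraic F x → x ∈ F

variable {X : Mod k K}

/-- the spaces `F L(n D)` grow at most like `g n` -/
def Grw (F : IntermediateField k K) (D : Cart X) (g : ℕ) : Prop :=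
  ∃ n₀ : ℕ, ∀ n ≥ n₀, Module.finrank F (Submodule.span F (secL D n : Set K)) ≤ g * n

variable (X) in
/-- the volume is at least a constant times the number of sections -/
def VolB : Prop :=
  ∃ N c c₂ : ℝ, 0 < c ∧ 0 < c₂ ∧ ∀ (D : Cart X) (m : ℕ), Ample D → StarT D m → (m : ℝ) ^ 2 ≤ c * h0 D 1 →
    N < h0 D 1 → c₂ * h0 D 1 ≤ vol D

/-- Theorem I -/
def FldB (hX : IsVar X) (hg : ∃ g, Gen X g) : Prop :=
  ∀ th : ℝ, 0 < th → ∃ (N c : ℝ) (g : ℕ), 0 < c ∧ ∀ (D : Cart X) (m : ℕ), Ample D → StarT D m →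
    (m : ℝ) ^ 2 ≤ c * h0 D 1 → N < h0 D 1 → (1 + th) * vol D < h0 D 1 →
      ∃ F : IntermediateField k K, Algebra.trdeg F K = 1 ∧ Clo F ∧ RF hX hg F D ≤ g ∧ Grw F D g

/-- two different fields -/
def PrmB (T : Cart X → Cart X → Cart X → ℝ) : Prop :=
  ∃ C : ℝ, ∀ (D : Cart X) (F F' : IntermediateField k K) (g g' : ℕ), Ample D → 0 < h0 D 1 → Algebra.trdeg F K = 1 →
    Algebra.trdeg F' K = 1 → Clo F → Clo F' → F ≠ F' → Grw F D g → Grw F' D g' →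
      T D D D ≤ C * (g + g' + 1) ^ 3 ∨
        {η : X.P | ∃ P : PDiv X, P.η = η ∧ ∃ S : Cart X, SPr X P.η S ∧
          T D D S ≤ C * (g + g' + 1) ^ 2}.Infinite

variable (T : Cart X → Cart X → Cart X → ℝ) (l : Cart X → ℝ) (c : ℝ) (A D : Cart X) (s : ℝ)

/-- the lower bound on both sides of `p` -/
def LowQ : Prop :=
  ∃ (C₀ ε₀ : ℝ) (b₀ : ℤ), 0 < ε₀ ∧ ∀ a b : ℤ, b₀ ≤ b → - ε₀ < b * (a - s * b) → a - s * b ≤ 1 →
    chi T l c (A ^ a * D ^ b) - C₀ ≤ h0 (A ^ a * D ^ b) 1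

/-- no lattice points near `p` on the wrong side -/
def WrgQ : Prop :=
  ∃ c₁ : ℝ, 0 < c₁ ∧ ∃ b₀ : ℤ, ∀ a b : ℤ, b₀ ≤ b → (a : ℝ) < s * b → c₁ ≤ b * (s * b - a)

/-- the orders of the sections along the prime divisors -/
def StrQ : Prop :=
  ∀ C₀ : ℝ, ∃ C₂ : ℝ, ∀ a b : ℤ, 0 < b → s * b < a → b * (a - s * b) ≤ C₀ → ∀ m : ℕ, C₂ * b ≤ (m : ℝ) ^ 3 →
    StarT (A ^ a * D ^ b) m

/-- infinitely many prime divisors of bounded degree -/
def FinQ : Prop :=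
  ∀ c₀ Γ : ℝ, 0 < c₀ → ∃ b₀ : ℤ, ∀ a b : ℤ, b₀ ≤ b → 0 < a - s * b → c₀ ≤ b * (a - s * b) →
    {η : X.P | ∃ P : PDiv X, P.η = η ∧ ∃ S : Cart X, SPr X P.η S ∧
      T (A ^ a * D ^ b) (A ^ a * D ^ b) S ≤ Γ}.Infinite → Exc T A D s

end Pool.Agent.H39.TQ
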