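import Pool.Agent.H39.TQ.Seq
import Pool.Agent.H24.TK.Fin
import Pool.Agent.H24.TU.RFG

/-!
# [H39 TQ Asm] THEOREM Q (MP_e49dc9_ag): assembly of the chapters

`main_q`: `Thr T l c A D s` (with `T(p,p,p) = 0`, `s` irrational) implies the exception `Exc T A D s`.
-/

set_option autoImplicit false

namespace Pool.Agent.H39.TQ

open Pool.Agent.H54.RV Pool.Agent.H83.TU Pool.Agent.H83.TK Pool.Agent.H24.VP Pool.Agent.H24.TV

variable {k K : Type} [Field k] [Field K] [Algebra k K] {X : Mod k K}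
  {T : Cart X → Cart X → Cart X → ℝ} {l : Cart X → ℝ} {c : ℝ} {A D : Cart X} {s : ℝ}

theorem secL_powpow (W : Cart X) (r n : ℕ) : secL (W ^ r) n = secL W (r * n) := by
  ext f
  show (∀ x, _) ↔ (∀ x, _)
  refine forall_congr' fun x => ?_
  rw [pow_eq, ← pow_mul]

theorem grw_pow {F : IntermediateField k K} {W : Cart X} {g : ℕ} (hg : Grw F W g) {r : ℕ} (hr : 1 ≤ r) :
    Grw F (W ^ r) (g * r) := by
  obtain ⟨n₀, hn⟩ := hg
  refine ⟨n₀, fun n h1 => ?_⟩
  rw [secL_powpow, mul_assoc]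
  exact hn (r * n) (h1.trans (Nat.le_mul_of_pos_left n hr))

/-- multiplication by the powers of a section of `r (N W' - W)` -/
theorem grw_le [CharZero k] (h : Hyp X) {F : IntermediateField k K} {W W' : Cart X} {N r g : ℕ} (hr : 1 ≤ r) (hN : 1 ≤ N)
    {t : K} (ht0 : t ≠ 0) (ht : Sec (W' ^ N * W⁻¹) r t) (hg : Grw F W' g) : Grw F (W ^ r) (g * (N * r)) := by
  obtain ⟨n₀, hn⟩ := hg
  obtain ⟨A, hA⟩ := h.amp
  refine ⟨n₀, fun n h1 => ?_⟩
  have h2 := hn (N * (r * n)) (by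
    rw [← mul_assoc]
    exact h1.trans (Nat.le_mul_of_pos_left n (Nat.mul_pos hN hr)))
  have h2' : g * (N * (r * n)) = g * (N * r) * n := by ring
  rw [h2'] at h2
  refine le_trans ?_ h2
  have hfd : FiniteDimensional F (Submodule.span F (secL W' (N * (r * n)) : Set K)) := by
    refine Pool.Agent.H24.TU.lf_fin W' F _ ?_
    rw [← Pool.Agent.H24.TK.secL_pow]
    exact Pool.Agent.H24.TK.fd h.var h.gen hA _
  have hmem : ∀ f ∈ Submodule.span F (secL (W ^ r) n : Set K),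
      f * t ^ n ∈ Submodule.span F (secL W' (N * (r * n)) : Set K) := by
    intro f hf
    induction hf using Submodule.span_induction with
    | mem f hf =>
      refine Submodule.subset_span fun x => ?_
      have h3 : f * (W ^ r).eq x ^ n ∈ X.O x := hf x
      have h4 : t * (W' ^ N * W⁻¹).eq x ^ r ∈ X.O x := ht x
      have h5 := (X.O x).mul_mem h3 ((X.O x).pow_mem h4 n)
      have h6 : f * t ^ n * W'.eq x ^ (N * (r * n)) =
          f * (W ^ r).eq x ^ n * (t * (W' ^ N * W⁻¹).eq x ^ r) ^ n := by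
        rw [pow_eq, mul_eq, pow_eq, inv_eq]
        have h7 := W.ne x
        rw [mul_pow, mul_pow, mul_pow, inv_pow, inv_pow, ← pow_mul, ← pow_mul, ← pow_mul]
        have h8 : W.eq x ^ (r * n) ≠ 0 := pow_ne_zero _ h7
        field_simp
      rw [h6]
      exact h5
    | zero => rw [zero_mul]; exact Submodule.zero_mem _
    | add x y _ _ h1 h2 => rw [add_mul]; exact Submodule.add_mem _ h1 h2
    | smul c x _ h1 => rw [smul_mul_assoc]; exact Submodule.smul_mem _ c h1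
  let φ : Submodule.span F (secL (W ^ r) n : Set K) →ₗ[F] Submodule.span F (secL W' (N * (r * n)) : Set K) :=
    { toFun := fun f => ⟨f.1 * t ^ n, hmem f.1 f.2⟩
      map_add' := fun f g => Subtype.ext (add_mul _ _ _)
      map_smul' := fun c f => Subtype.ext (smul_mul_assoc _ _ _) }
  refine LinearMap.finrank_le_finrank_of_injective (f := φ) ?_
  intro f g hfg
  have h3 : f.1 * t ^ n = g.1 * t ^ n := congrArg Subtype.val hfg
  exact Subtype.ext (mul_right_cancel₀ (pow_ne_zero n ht0) h3)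

/-- **THEOREM Q, the main part** -/
theorem main_q [IsAlgClosed k] [CharZero k] (h : Hyp X) (ht : Thr T l c A D s)
    (hα : 0 < tpp T A D s A) (hβ0 : 0 ≤ tp T A D s A A) (hκ0 : 0 < T A A A) (hl : 0 < lp l A D s)
    (hlow : LowQ T l c A D s) (hwrg : WrgQ s) (hstr : ¬ Exc T A D s → StrQ A D s) (hvol : VolB X)
    (hfld : FldB h.var h.gen) (hprm : PrmB T) (hfin : FinQ T A D s) : Exc T A D s := by
  by_contra hE
  obtain ⟨c₀, g, N, hc0, hN, hseq⟩ := seq_q h ht hα hβ0 hκ0 hl hlow hwrg (hstr hE) hvol hfld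
  obtain ⟨C, hC⟩ := hprm
  obtain ⟨G, hG⟩ : ∃ G : ℝ, G = g + g * N + 1 := ⟨_, rfl⟩
  have hG0 : 0 ≤ G := by rw [hG]; positivity
  obtain ⟨b₀, hb₀⟩ := hfin c₀ (|C| * G ^ 2) hc0
  obtain ⟨n, hn⟩ := exists_nat_gt (|C| * G ^ 3 / (3 * c₀ * tpp T A D s A))
  rw [div_lt_iff₀ (by positivity)] at hn
  obtain ⟨a, b, a', b', F, F', h1, hbz, he0, hbe, hW, hW0, hV, hF, hF', hc, hc', hne, hg, hg'⟩ := hseq (max b₀ n)
  have hb0 : b₀ ≤ b := (le_max_left _ _).trans h1
  have hbn : (n : ℝ) ≤ b := by exact_mod_cast (le_max_right _ _).trans h1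
  have hbp : (0 : ℝ) < b := by exact_mod_cast hbz
  obtain ⟨W, hWd⟩ : ∃ W, W = A ^ a * D ^ b := ⟨_, rfl⟩
  have hTW := w_TTT (A := A) (D := D) ht.hr.tri s a b
  have hb2 := hb₀ a b hb0 he0 hbe
  rw [← hWd] at hW hW0 hV hg hTW hb2
  -- a section
  obtain ⟨z⟩ := h.var.ne
  obtain ⟨r, hr, t, htS, htz, -⟩ := hV z
  have ht0 : t ≠ 0 := left_ne_zero_of_mul (And.left htz)
  have hr' : (1 : ℝ) ≤ r := by exact_mod_cast hr
  have hg1 := grw_pow hg hr
  have hg2 := grw_le h hr hN ht0 htS hg'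
  have hGr : ((g * r : ℕ) : ℝ) + ((g * (N * r) : ℕ) : ℝ) + 1 ≤ r * G := by
    push_cast
    rw [hG]
    linarith
  have hGr0 : (0 : ℝ) ≤ ((g * r : ℕ) : ℝ) + ((g * (N * r) : ℕ) : ℝ) + 1 := by positivity
  have hr0 : (0 : ℝ) < r := by linarith
  have hWr : 0 < h0 (W ^ r) 1 := by
    obtain ⟨f, hf, hf0⟩ : ∃ f ∈ secL W 1, f ≠ 0 := by
      by_contra hcon
      push Not at hcon
      have h3 : secL W 1 = ⊥ := by
        rw [Submodule.eq_bot_iff]
        exact hcon
      have h4 : h0 W 1 = 0 := by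
        unfold h0
        rw [h3]
        exact finrank_bot k K
      omega
    have h5 : f ^ r ∈ secL (W ^ r) 1 := by
      rw [secL_powpow, mul_one]
      intro x
      have h6 : f * W.eq x ^ 1 ∈ X.O x := hf x
      rw [pow_one] at h6
      rw [← mul_pow]
      exact (X.O x).pow_mem h6 r
    have hfd : FiniteDimensional k (secL (W ^ r) 1) := Pool.Agent.H24.TK.fd h.var h.gen hW _
    unfold h0
    rw [Module.finrank_pos_iff]
    exact ⟨⟨⟨f ^ r, h5⟩, 0, fun h6 => pow_ne_zero r hf0 (congrArg Subtype.val h6)⟩⟩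
  rcases hC (W ^ r) F F' (g * r) (g * (N * r)) (ample_pow W r hr hW) hWr hF hF' hc hc' hne hg1 hg2 with h2 | h2
  · -- the volume is bounded
    rw [ht.hr.tri.pow, ht.hr.tri.pow2, ht.hr.tri.pow3] at h2
    have h3 : C * ((g * r : ℕ) + (g * (N * r) : ℕ) + 1) ^ 3 ≤ |C| * (r * G) ^ 3 :=
      (mul_le_mul_of_nonneg_right (le_abs_self C) (by positivity)).trans
        (mul_le_mul_of_nonneg_left (pow_le_pow_left₀ hGr0 hGr 3) (abs_nonneg C))
    have h4 : (r : ℝ) ^ 3 * T W W W ≤ r ^ 3 * (|C| * G ^ 3) := by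
      have := h2.trans h3
      nlinarith
    have h5 : T W W W ≤ |C| * G ^ 3 := le_of_mul_le_mul_left h4 (by positivity)
    rw [hTW, ht.p3] at h5
    obtain ⟨e, he⟩ : ∃ e, e = a - s * b := ⟨_, rfl⟩
    rw [← he] at h5 he0 hbe
    have h6 : 0 ≤ 3 * b * e ^ 2 * tp T A D s A A := by positivity
    have h7 : 0 ≤ e ^ 3 * T A A A := by positivity
    have h8 : 3 * b * c₀ * tpp T A D s A ≤ 3 * (b : ℝ) ^ 2 * e * tpp T A D s A := by
      have h9 : 3 * b * c₀ ≤ 3 * b * (b * e) := mul_le_mul_of_nonneg_left hbe (by positivity)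
      have h10 : 3 * b * (b * e) = 3 * (b : ℝ) ^ 2 * e := by ring
      rw [h10] at h9
      exact mul_le_mul_of_nonneg_right h9 hα.le
    have h11 : (n : ℝ) * (3 * c₀ * tpp T A D s A) ≤ b * (3 * c₀ * tpp T A D s A) :=
      mul_le_mul_of_nonneg_right hbn (by positivity)
    have h12 : 3 * b * c₀ * tpp T A D s A = b * (3 * c₀ * tpp T A D s A) := by ring
    linarith
  · -- infinitely many prime divisors of bounded degree
    refine hE (hb2 (h2.mono ?_))
    rintro η ⟨P, hP, S, hS, hTS⟩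
    refine ⟨P, hP, S, hS, ?_⟩
    rw [ht.hr.tri.pow, ht.hr.tri.pow2] at hTS
    have h3 : C * ((g * r : ℕ) + (g * (N * r) : ℕ) + 1) ^ 2 ≤ |C| * (r * G) ^ 2 :=
      (mul_le_mul_of_nonneg_right (le_abs_self C) (by positivity)).trans
        (mul_le_mul_of_nonneg_left (pow_le_pow_left₀ hGr0 hGr 2) (abs_nonneg C))
    have h4 : (r : ℝ) ^ 2 * T W W S ≤ r ^ 2 * (|C| * G ^ 2) := by
      have := hTS.trans h3
      nlinarith
    exact le_of_mul_le_mul_left h4 (by positivity)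

end Pool.Agent.H39.TQ
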