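import Pool.Agent.H39.TQ.Def

/-!
# [H39 TQ Fam] THEOREM Q (MP_e49dc9_ag): the family in the exception

`DFam T F`: infinitely many pairwise disjoint prime divisors `F 0, F 1, ..`, numerically equal, with `F i . F j = 0`.
`η i` is the generic point of `F i`; the points of `F i` are the `x` with `η i ⤳ x`.
-/

set_option autoImplicit false

namespace Pool.Agent.H39.TQ

open Pool.Agent.H54.RV Pool.Agent.H83.TU Pool.Agent.H83.TK Pool.Agent.H24.VP

variable {k K : Type} [Field k] [Field K] [Algebra k K] {X : Mod k K}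

/-- infinitely many pairwise disjoint prime divisors `F 0, F 1, ..`, numerically equal, with `F i . F j = 0` -/
structure DFam (T : Cart X → Cart X → Cart X → ℝ) (F : ℕ → Cart X) : Prop where
  prm : ∃ η : ℕ → X.P, (∀ i, (∃ P : PDiv X, P.η = η i) ∧ SPr X (η i) (F i)) ∧
    ∀ i j, i ≠ j → ∀ x, ¬ (η i ⤳ x ∧ η j ⤳ x)
  num : ∀ i U V, T (F i) U V = T (F 0) U V
  zero : ∀ i j U, T (F i) (F j) U = 0

end Pool.Agent.H39.TQ
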