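import Pool.Agent.H39.TQ.Red
import Pool.Agent.H39.TQ.Fam
import Pool.Agent.H83.TC.Cor
import Pool.Agent.H83.TU.EN
import Pool.Agent.H20.TU.NZR

/-!
# [H39 TQ Glb] THEOREM Q (MP_e49dc9_ag): the nef class of a rational threshold

`glb_amp`, `glb_out`: what `IsGLB (Quo A D) s` means.  `glb_nef`: a rational threshold gives a nef class which is not ample.
-/

set_option autoImplicit false

namespace Pool.Agent.H39.TQ

open Pool.Agent.H54.RV Pool.Agent.H83.TU Pool.Agent.H83.TK Pool.Agent.H24.VP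

variable {k K : Type} [Field k] [Field K] [Algebra k K] {X : Mod k K}
  {T : Cart X → Cart X → Cart X → ℝ} {l : Cart X → ℝ} {c : ℝ} {A D : Cart X} {s : ℝ}

theorem glb_amp (h : Hyp X) (hA : Ample A) (hs : IsGLB (Quo A D) s) :
    ∀ a b : ℤ, 0 < b → s * b < a → Ample (A ^ a * D ^ b) := by
  intro a b hb h1
  have hb' : (0 : ℝ) < b := by exact_mod_cast hb
  have h2 : s < a / b := by rwa [lt_div_iff₀ hb']
  obtain ⟨x, ⟨a', b', hb1, rfl, hW⟩, hx⟩ : ∃ x ∈ Quo A D, x < a / b := by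
    by_contra hcon
    push Not at hcon
    exact absurd (hs.2 hcon) (not_le.2 h2)
  have hb1' : (0 : ℝ) < b' := by exact_mod_cast hb1
  rw [div_lt_div_iff₀ hb1' hb'] at hx
  have hx' : a' * b < a * b' := by exact_mod_cast hx
  exact Pool.Agent.H83.TC.up_amp h hA hb hb1 hW hx'.le

theorem glb_out (hs : IsGLB (Quo A D) s) :
    ∀ a b : ℤ, 0 < b → (a : ℝ) < s * b → ¬ Ample (A ^ a * D ^ b) := by
  intro a b hb h1 h2
  have hb' : (0 : ℝ) < b := by exact_mod_cast hb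
  have h3 := hs.1 ⟨a, b, hb, rfl, h2⟩
  rw [le_div_iff₀ hb'] at h3
  linarith

/-- a rational threshold gives a nef class which is not ample -/
theorem glb_nef (h : Hyp X) (hA : Ample A) {q : ℚ} (hs : IsGLB (Quo A D) (q : ℝ)) :
    Nf (A ^ q.num * D ^ (q.den : ℤ)) ∧ ¬ Ample (A ^ q.num * D ^ (q.den : ℤ)) := by
  have hd : (0 : ℤ) < q.den := by exact_mod_cast q.pos
  have h1 : (q : ℝ) * ((q.den : ℤ) : ℝ) = ((q.num : ℤ) : ℝ) := by
    have h2 : (q : ℝ) = (q.num : ℝ) / (q.den : ℝ) := by exact_mod_cast (Rat.num_div_den q).symm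
    have h3 : (q.den : ℝ) ≠ 0 := by exact_mod_cast q.pos.ne'
    rw [h2]
    push_cast
    field_simp
  exact ⟨Pool.Agent.H83.TC.thr_nef h (glb_amp h hA hs) hd h1.le, Pool.Agent.H83.TC.thr_not h (glb_out hs) hd h1.ge⟩

/-- the nef class of a disjoint family is nonzero and not ample -/
theorem fam_bdry [CharZero k] [T0Space X.P] (h : Hyp X) (hr : RR T l c) {F : ℕ → Cart X} (hF : DFam T F) {r : ℕ}
    (hr1 : 1 ≤ r) {N : Cart X} (hN : ∀ U V, T N U V = r * T (F 0) U V) :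
    ¬ NumZ N ∧ ¬ Ample N ∧ ∀ U, T N N U = 0 := by
  obtain ⟨A, hA⟩ := h.amp
  have hr0 : (0 : ℝ) < r := by exact_mod_cast hr1
  have hNN : ∀ U, T N N U = 0 := by
    intro U
    rw [hN, hr.tri.s12, hN, hF.zero]
    ring
  refine ⟨fun h1 => ?_, fun h1 => ?_, hNN⟩
  · obtain ⟨η, hη, -⟩ := hF.prm
    obtain ⟨⟨P, hP⟩, hS⟩ := hη 0
    rw [← hP] at hS
    have h2 := pos_prm h hr hA hA P hS
    have h3 := numz_T h hr h1 A A
    rw [hN, hr.tri.s12, hr.tri.s23] at h3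
    rcases mul_eq_zero.1 h3 with h4 | h4
    · exact absurd h4 hr0.ne'
    · exact absurd h4 h2.ne'
  · exact absurd (hNN A) (pos_amp h hr h1 h1 hA).ne'

theorem ena_not_numz [CharZero k] (h : Hyp X) {M : Cart X} (hM : Effective M) (hM' : ¬ Effective M⁻¹) : ¬ NumZ M :=
  Pool.Agent.H83.TU.eff_not_numz h (Pool.Agent.H20.TU.nzr h.var h.gen h.tr) M hM hM'

end Pool.Agent.H39.TQ
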