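import Pool.Agent.H39.TQ.Thm
import Pool.Agent.H39.TQ.Glb
import Pool.Agent.H41.TQ.FNf
import Pool.Agent.H20.TS.Any

/-!
# [H39 TQ Fin] THEOREM Q (MP_e49dc9_ag): the final definitions

* `HilbT T l c`: the intersection form `T` (`T U V W = U . V . W`), the linear form `l` (`c_2 . U / 12`) and the constant
  `c` (`χ(O)`): the Hilbert polynomials.
* `Fib T F`: the exception: infinitely many pairwise disjoint prime divisors, numerically equal.
* `Bd T A D s F`: `s` is the larger root of `(D + x A) . (D + x A) . F 0`.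
* `Quo A D`: the quotients `a / b` with `a A + b D` ample (`H39/TQ/Red.lean`).
-/

set_option autoImplicit false

namespace Pool.Agent.H39.TQ

open Pool.Agent.H54.RV Pool.Agent.H83.TU Pool.Agent.H83.TK Pool.Agent.H24.VP Pool.Agent.H39.TU

variable {k K : Type} [Field k] [Field K] [Algebra k K] {X : Mod k K}

/-- `T` is symmetric and trilinear, `l` is additive, and positive on the ample divisors; for every `W` and every ample `A`
and all large `n`: `dim H⁰(U) = T(U,U,U) / 6 + l(U) + c`, where `U = W + n A` -/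
structure HilbT (T : Cart X → Cart X → Cart X → ℤ) (l : Cart X → ℝ) (c : ℝ) : Prop where
  s12 : ∀ U V W, T U V W = T V U W
  s23 : ∀ U V W, T U V W = T U W V
  add : ∀ U U' V W, T (U * U') V W = T U V W + T U' V W
  ladd : ∀ U V, l (U * V) = l U + l V
  pos : ∀ A, Ample A → 0 < l A
  ev : ∀ W A, Ample A → ∃ n₀ : ℕ, ∀ n ≥ n₀, (h0 (W * A ^ n) 1 : ℝ) =
    (T (W * A ^ n) (W * A ^ n) (W * A ^ n) : ℝ) / 6 + l (W * A ^ n) + c

/-- infinitely many pairwise disjoint prime divisors `F 0, F 1, ..` which are numerically equal, with `F i . F j = 0`;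
a multiple of their class is the class of a nef and effective divisor `N` -/
structure Fib (T : Cart X → Cart X → Cart X → ℤ) (F : ℕ → Cart X) : Prop where
  prm : ∃ η : ℕ → X.P, (∀ i, (∃ P : PDiv X, P.η = η i) ∧ SPr X (η i) (F i)) ∧
    ∀ i j, i ≠ j → ∀ x, ¬ (η i ⤳ x ∧ η j ⤳ x)
  num : ∀ i U V, T (F i) U V = T (F 0) U V
  zero : ∀ i j U, T (F i) (F j) U = 0
  nef : ∃ (r : ℕ) (N : Cart X), 1 ≤ r ∧ Effective N ∧ Nf N ∧ ∀ U V, T N U V = r * T (F 0) U V

/-- `s` is the larger root of the polynomial `(D + x A) . (D + x A) . F 0` in `x`, and `A . A . F 0` is positive -/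
structure Bd (T : Cart X → Cart X → Cart X → ℤ) (A D : Cart X) (s : ℝ) (F : ℕ → Cart X) : Prop where
  pos : 0 < T A A (F 0)
  quad : (T D D (F 0) : ℝ) + 2 * s * T A D (F 0) + s ^ 2 * T A A (F 0) = 0
  lar : 0 < (T A D (F 0) : ℝ) + s * T A A (F 0)

theorem HilbT.rr {T : Cart X → Cart X → Cart X → ℤ} {l : Cart X → ℝ} {c : ℝ} (h : HilbT T l c) :
    RR (fun U V W => (T U V W : ℝ)) l c := by
  refine ⟨⟨fun U U' V W => ?_, fun U V W => ?_, fun U V W => ?_⟩, h.ladd, fun W A hA => ?_⟩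
  · exact_mod_cast h.add U U' V W
  · exact_mod_cast h.s12 U V W
  · exact_mod_cast h.s23 U V W
  · obtain ⟨n₀, hn⟩ := h.ev W A hA
    exact ⟨n₀, hn⟩

theorem fib_of [CharZero k] [T0Space X.P] (h : Hyp X) {T : Cart X → Cart X → Cart X → ℤ} {l : Cart X → ℝ} {c : ℝ}
    (hT : HilbT T l c) {ρ : ℕ} (ν : Cart X →* Multiplicative (Fin ρ → ℤ)) (hν : ∀ D, ν D = 1 → NumZ D)
    {F : ℕ → Cart X} (hF : DFam (fun U V W => (T U V W : ℝ)) F) : Fib T F := by
  refine ⟨hF.prm, fun i U V => ?_, fun i j U => ?_, ?_⟩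
  · exact_mod_cast hF.num i U V
  · exact_mod_cast hF.zero i j U
  · obtain ⟨r, N, h1, h2, h3, h4⟩ := Pool.Agent.H41.TQ.fam_nef h hT.rr ν hν hF
    exact ⟨r, N, h1, h2, h3, fun U V => by exact_mod_cast h4 U V⟩

theorem dfam_of {T : Cart X → Cart X → Cart X → ℤ} {F : ℕ → Cart X} (hF : Fib T F) :
    DFam (fun U V W => (T U V W : ℝ)) F := by
  refine ⟨hF.prm, fun i U V => ?_, fun i j U => ?_⟩
  · exact_mod_cast hF.num i U V
  · exact_mod_cast hF.zero i j U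

/-- the hypothesis on the Hilbert polynomials -/
def HypH (X : Mod k K) : Prop :=
  ∀ A : Cart X, Ample A → ∃ a b c : ℝ, 0 < b ∧
    ∃ n₀ : ℕ, ∀ n : ℕ, n₀ ≤ n → (h0 A n : ℝ) = a * (n : ℝ) ^ 3 + b * n + c

theorem exists_hilb [CharZero k] [IsAlgClosed k] [T0Space X.P] (h : Hyp X) (hH : HypH X) :
    ∃ (T : Cart X → Cart X → Cart X → ℤ) (l : Cart X → ℝ) (c : ℝ), HilbT T l c := by
  obtain ⟨T, l, c, e1, e2, e3, e4, e5, -, e6⟩ := Pool.Agent.H20.TS.any_of h hH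
  exact ⟨T, l, c, ⟨e1, e2, e3, e4, e5, e6⟩⟩

/-- **THEOREM Q** -/
theorem thr_all [IsAlgClosed k] [CharZero k] [T0Space X.P] (h : Hyp X) {T : Cart X → Cart X → Cart X → ℤ}
    {l : Cart X → ℝ} {c : ℝ} (hT : HilbT T l c) {ρ : ℕ}
    (ν : Cart X →* Multiplicative (Fin ρ → ℤ)) (hν : ∀ D, ν D = 1 → NumZ D) (A D : Cart X) (hA : Ample A) :
    ∃ s : ℝ, IsGLB (Quo A D) s ∧ ((∃ q : ℚ, s = q) ∨ ∃ F, Fib T F ∧ Bd T A D s F) := by
  obtain ⟨s, hs1, hs2⟩ := thm_q h hT.rr hT.pos ν hν hA D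
  refine ⟨s, hs1, hs2.imp_right ?_⟩
  rintro ⟨F, hF⟩
  refine ⟨F, fib_of h hT ν hν hF.toDFam, ?_, hF.quad, hF.lar⟩
  exact_mod_cast hF.pos

end Pool.Agent.H39.TQ
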