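import Mathlib

/-!
# [H39 TQ Lat] THEOREM Q (MP_e49dc9_ag): lattice points near a badly approximable line

If `c ≤ b |a - s b|` for all integers `a`, `b ≥ b₀`, then for every large `X` there are integers `a`, `b` with `b` of the
size `X` and `a - s b` positive and of the size `1 / X`.
-/

set_option autoImplicit false

namespace Pool.Agent.H39.TQ

/-- the distance to the integers of the first multiples of `s` -/
private theorem small_b {s : ℝ} (hs : Irrational s) (b₀ : ℕ) :
    ∃ μ : ℝ, 0 < μ ∧ ∀ a b : ℤ, 0 < b → b < b₀ → μ ≤ |a - s * b| := by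
  induction b₀ with
  | zero => exact ⟨1, one_pos, fun a b h1 h2 => by push_cast at h2; omega⟩
  | succ n ih =>
    obtain ⟨μ, hμ, h⟩ := ih
    rcases Nat.eq_zero_or_pos n with hn | hn
    · subst hn
      exact ⟨1, one_pos, fun a b h1 h2 => by push_cast at h2; omega⟩
    · have h0 : 0 < |((round (s * n) : ℤ) : ℝ) - s * n| := by
        rw [abs_pos, sub_ne_zero]
        intro heq
        have h1 : Irrational (s * (n : ℤ)) := hs.mul_intCast (by exact_mod_cast hn.ne')
        apply h1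
        refine ⟨(round (s * n) : ℤ), ?_⟩
        push_cast
        exact heq
      refine ⟨min μ |((round (s * n) : ℤ) : ℝ) - s * n|, lt_min hμ h0, fun a b h1 h2 => ?_⟩
      rcases lt_or_ge b (n : ℤ) with h3 | h3
      · exact (min_le_left _ _).trans (h a b h1 h3)
      · have hb : b = n := by push_cast at h2; omega
        subst hb
        refine (min_le_right _ _).trans ?_
        have := round_le (s * n) a
        rw [abs_sub_comm, abs_sub_comm (a : ℝ)]
        push_cast
        exact this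

/-- one scale -/
private theorem lat_n {s c : ℝ} (hc : 0 < c) (hc1 : c ≤ 1) {b₀ : ℕ} {μ : ℝ}
    (hμ : ∀ a b : ℤ, 0 < b → b < b₀ → μ ≤ |a - s * b|)
    (hba : ∀ a b : ℤ, (b₀ : ℤ) ≤ b → c ≤ b * |a - s * b|) (n : ℕ) (hn : 0 < n) (hn1 : 1 / (c * n) < μ)
    (hn2 : 1 < c * n) :
    ∃ a b : ℤ, c ^ 2 * n ≤ b ∧ b ≤ n ∧ c / n ≤ a - s * b ∧ a - s * b ≤ 1 / (c * n) := by
  have hn' : (0 : ℝ) < n := by exact_mod_cast hn
  obtain ⟨q, h1, h2⟩ := Real.exists_rat_abs_sub_le_and_den_le s hn
  have hk : (0 : ℝ) < q.den := by exact_mod_cast q.den_pos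
  have hkn : (q.den : ℝ) ≤ n := by exact_mod_cast h2
  obtain ⟨e, he⟩ : ∃ e : ℝ, e = (q.num : ℤ) - s * (q.den : ℤ) := ⟨_, rfl⟩
  have he1 : |e| ≤ 1 / (n + 1) := by
    have h3 : e = -(q.den * (s - q)) := by
      rw [he]
      have h4 : (q : ℝ) = q.num / q.den := Rat.cast_def q
      rw [h4]
      push_cast
      field_simp
      ring
    rw [h3, abs_neg, abs_mul, abs_of_pos hk]
    calc (q.den : ℝ) * |s - q| ≤ q.den * (1 / ((n + 1) * q.den)) := mul_le_mul_of_nonneg_left h1 hk.le
      _ = 1 / (n + 1) := by field_simp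
  have hcn : 1 / ((n : ℝ) + 1) < μ := by
    refine lt_of_le_of_lt ?_ hn1
    apply one_div_le_one_div_of_le (by positivity)
    nlinarith
  have hkb : (b₀ : ℤ) ≤ (q.den : ℤ) := by
    by_contra hcon
    have h3 := hμ q.num q.den (by exact_mod_cast q.den_pos) (not_le.1 hcon)
    rw [← he] at h3
    linarith
  have hbk := hba q.num q.den hkb
  rw [← he] at hbk
  push_cast at hbk
  have hkc : c * (n + 1) ≤ q.den := by
    have h3 : (q.den : ℝ) * |e| ≤ q.den * (1 / (n + 1)) := mul_le_mul_of_nonneg_left he1 hk.le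
    have h4 : c ≤ q.den * (1 / (n + 1)) := hbk.trans h3
    have h5 : (0 : ℝ) < n + 1 := by positivity
    rw [mul_one_div, le_div_iff₀ h5] at h4
    exact h4
  have hen : c / n ≤ |e| := by
    rw [div_le_iff₀ hn']
    calc c ≤ q.den * |e| := hbk
      _ ≤ n * |e| := mul_le_mul_of_nonneg_right hkn (abs_nonneg _)
      _ = |e| * n := mul_comm _ _
  rcases le_or_gt 0 e with hpos | hneg
  · refine ⟨q.num, q.den, ?_, by exact_mod_cast h2, ?_, ?_⟩
    · have h3 : c ^ 2 * n ≤ c * (n + 1) := by nlinarith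
      push_cast
      linarith
    · rw [← he, ← abs_of_nonneg hpos]
      exact hen
    · rw [← he, ← abs_of_nonneg hpos]
      refine he1.trans ?_
      apply one_div_le_one_div_of_le (by positivity)
      nlinarith
  · -- the other side
    have habs : |e| = -e := abs_of_neg hneg
    have hcop : IsCoprime (q.den : ℤ) q.num := by
      rw [Int.isCoprime_iff_gcd_eq_one, Int.gcd_comm]
      have := q.reduced
      rw [Int.gcd_def]
      simpa using this
    obtain ⟨u, v, huv⟩ := hcop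
    obtain ⟨k2, hk2⟩ : ∃ k2 : ℤ, k2 = (-v) % (q.den : ℤ) := ⟨_, rfl⟩
    obtain ⟨p2, hp2⟩ : ∃ p2 : ℤ, (q.den : ℤ) * p2 - q.num * k2 = 1 := by
      have h3 : (q.den : ℤ) * ((-v) / (q.den : ℤ)) + k2 = -v := by
        rw [hk2]
        exact Int.mul_ediv_add_emod _ _
      refine ⟨u - q.num * ((-v) / (q.den : ℤ)), ?_⟩
      have h4 : k2 = -v - (q.den : ℤ) * ((-v) / (q.den : ℤ)) := by linarith
      rw [h4]
      linear_combination huv
    have hk2n : 0 ≤ k2 := by
      rw [hk2]
      exact Int.emod_nonneg _ (by exact_mod_cast q.den_pos.ne')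
    have hk2l : k2 < q.den := by
      rw [hk2]
      exact Int.emod_lt_of_pos _ (by exact_mod_cast q.den_pos)
    have hk2n' : (0 : ℝ) ≤ k2 := by exact_mod_cast hk2n
    have hk2l' : (k2 : ℝ) < q.den := by exact_mod_cast hk2l
    have hp2' : (q.den : ℝ) * p2 - q.num * k2 = 1 := by exact_mod_cast hp2
    have he2 : (q.den : ℝ) * (p2 - s * k2) = 1 + k2 * e := by
      rw [he]
      push_cast
      linear_combination hp2'
    have hq1 : (1 : ℝ) < q.den := by
      have : c * n < c * (n + 1) := by nlinarith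
      linarith
    have hke : -1 < k2 * e := by
      have h3 : k2 * |e| < 1 := by
        calc (k2 : ℝ) * |e| ≤ q.den * |e| := mul_le_mul_of_nonneg_right hk2l'.le (abs_nonneg _)
          _ ≤ n * (1 / (n + 1)) := mul_le_mul hkn he1 (abs_nonneg _) hn'.le
          _ < 1 := by
            rw [mul_one_div, div_lt_one (by positivity)]
            linarith
      rw [habs] at h3
      linarith
    have hpos2 : 0 < p2 - s * k2 := by
      have h3 : 0 < (q.den : ℝ) * (p2 - s * k2) := by rw [he2]; linarith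
      exact (mul_pos_iff_of_pos_left hk).1 h3
    have hup : p2 - s * k2 ≤ 1 / (c * n) := by
      have h3 : (q.den : ℝ) * (p2 - s * k2) ≤ 1 := by
        rw [he2]
        nlinarith
      rw [le_div_iff₀ (by positivity)]
      calc (p2 - s * k2) * (c * n) ≤ (p2 - s * k2) * q.den := by
            apply mul_le_mul_of_nonneg_left _ hpos2.le
            nlinarith
        _ ≤ 1 := by rw [mul_comm]; exact h3
    have hk20 : 0 < k2 := by
      rcases hk2n.lt_or_eq with h3 | h3
      · exact h3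
      · exfalso
        rw [← h3, mul_zero, sub_zero] at hp2
        have h4 : (q.den : ℤ) = 1 := by
          have h5 : (q.den : ℤ) ∣ 1 := ⟨p2, hp2.symm⟩
          exact Int.eq_one_of_dvd_one (by positivity) h5
        have h6 : (q.den : ℝ) = 1 := by exact_mod_cast h4
        linarith
    have hk2b : (b₀ : ℤ) ≤ k2 := by
      by_contra hcon
      have h3 := hμ p2 k2 hk20 (not_le.1 hcon)
      rw [abs_of_pos hpos2] at h3
      linarith
    have h3 := hba p2 k2 hk2b
    rw [abs_of_pos hpos2] at h3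
    refine ⟨p2, k2, ?_, by exact_mod_cast (hk2l'.le.trans hkn), ?_, hup⟩
    · have h4 : c ≤ k2 * (1 / (c * n)) := h3.trans (mul_le_mul_of_nonneg_left hup hk2n')
      rw [mul_one_div, le_div_iff₀ (by positivity)] at h4
      nlinarith
    · rw [div_le_iff₀ hn']
      calc c ≤ k2 * (p2 - s * k2) := h3
        _ ≤ n * (p2 - s * k2) := mul_le_mul_of_nonneg_right (hk2l'.le.trans hkn) hpos2.le
        _ = (p2 - s * k2) * n := mul_comm _ _

/-- **lattice points near a badly approximable line** -/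
theorem lat {s c : ℝ} (hs : Irrational s) (hc : 0 < c) {b₀ : ℤ}
    (hba : ∀ a b : ℤ, b₀ ≤ b → c ≤ b * |a - s * b|) :
    ∃ B : ℝ, 1 ≤ B ∧ ∃ X₀ : ℝ, 1 ≤ X₀ ∧ ∀ X ≥ X₀, ∃ a b : ℤ, X ≤ b ∧ b ≤ B * X ∧ 1 / (B * X) ≤ a - s * b ∧
      a - s * b ≤ B / X := by
  obtain ⟨c', hc'⟩ : ∃ c', c' = min c 1 := ⟨_, rfl⟩
  have hc0 : 0 < c' := by rw [hc']; exact lt_min hc one_pos
  have hc1 : c' ≤ 1 := by rw [hc']; exact min_le_right _ _
  have hcc : c' ≤ c := by rw [hc']; exact min_le_left _ _
  obtain ⟨μ, hμ, hsm⟩ := small_b hs (b₀.toNat + 1)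
  have hba' : ∀ a b : ℤ, ((b₀.toNat + 1 : ℕ) : ℤ) ≤ b → c' ≤ b * |a - s * b| := by
    intro a b hb
    refine hcc.trans (hba a b ?_)
    have := Int.self_le_toNat b₀
    push_cast at hb
    omega
  obtain ⟨M, hM⟩ : ∃ M, M = max (max (2 / c') (2 / (c' * μ))) 1 := ⟨_, rfl⟩
  have hM1 : 1 ≤ M := by rw [hM]; exact le_max_right _ _
  have hM2 : 2 / c' ≤ M := by rw [hM]; exact (le_max_left _ _).trans (le_max_left _ _)
  have hM3 : 2 / (c' * μ) ≤ M := by rw [hM]; exact (le_max_right _ _).trans (le_max_left _ _)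
  refine ⟨2 / c' ^ 3, ?_, M, hM1, fun X hX => ?_⟩
  · rw [le_div_iff₀ (by positivity)]
    have : c' ^ 3 ≤ 1 := pow_le_one₀ hc0.le hc1
    linarith
  · have hX1 : 1 ≤ X := hM1.trans hX
    have hX0 : 0 < X := by linarith
    obtain ⟨n, hn⟩ : ∃ n, n = ⌈X / c' ^ 2⌉₊ := ⟨_, rfl⟩
    have h1 : X / c' ^ 2 ≤ n := by rw [hn]; exact Nat.le_ceil _
    have h2 : (n : ℝ) < X / c' ^ 2 + 1 := by rw [hn]; exact Nat.ceil_lt_add_one (by positivity)
    have hc2 : c' ^ 2 ≤ 1 := pow_le_one₀ hc0.le hc1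
    have hXn : X ≤ c' ^ 2 * n := by
      rw [div_le_iff₀ (by positivity)] at h1
      linarith
    have hnX : (n : ℝ) * c' ^ 2 ≤ 2 * X := by
      have h3 : (n : ℝ) * c' ^ 2 ≤ (X / c' ^ 2 + 1) * c' ^ 2 := mul_le_mul_of_nonneg_right h2.le (by positivity)
      have h4 : (X / c' ^ 2 + 1) * c' ^ 2 = X + c' ^ 2 := by field_simp
      linarith
    have hn0' : (0 : ℝ) < n := lt_of_lt_of_le (by positivity) h1
    have hn0 : 0 < n := by exact_mod_cast hn0'
    have hXn' : X ≤ n := by nlinarith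
    obtain ⟨a, b, e1, e2, e3, e4⟩ := lat_n (s := s) hc0 hc1 hsm hba' n hn0 (by
      rw [div_lt_iff₀ (by positivity)]
      rw [div_le_iff₀ (by positivity)] at hM3
      have : M * (c' * μ) ≤ n * (c' * μ) := mul_le_mul_of_nonneg_right (hX.le.trans hXn') (by positivity)
      nlinarith) (by
      rw [div_le_iff₀ hc0] at hM2
      have : M * c' ≤ n * c' := mul_le_mul_of_nonneg_right (hX.le.trans hXn') hc0.le
      nlinarith)
    refine ⟨a, b, hXn.trans e1, ?_, ?_, ?_⟩
    · rw [div_mul_eq_mul_div, le_div_iff₀ (by positivity)]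
      have h3 : (b : ℝ) ≤ n := by exact_mod_cast e2
      calc (b : ℝ) * c' ^ 3 ≤ n * c' ^ 3 := mul_le_mul_of_nonneg_right h3 (by positivity)
        _ = n * c' ^ 2 * c' := by ring
        _ ≤ 2 * X * 1 := mul_le_mul hnX hc1 hc0.le (by positivity)
        _ = 2 * X := mul_one _
    · refine le_trans ?_ e3
      rw [div_le_div_iff₀ (by positivity) hn0', one_mul, div_mul_eq_mul_div, mul_div_assoc']
      rw [le_div_iff₀ (by positivity)]
      calc (n : ℝ) * c' ^ 3 = n * c' ^ 2 * c' := by ring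
        _ ≤ 2 * X * c' := mul_le_mul_of_nonneg_right hnX hc0.le
        _ = c' * (2 * X) := by ring
    · refine e4.trans ?_
      rw [div_le_div_iff₀ (by positivity) hX0, one_mul, div_mul_eq_mul_div, le_div_iff₀ (by positivity)]
      have h3 : X * c' ^ 3 ≤ X := by
        have : c' ^ 3 ≤ 1 := pow_le_one₀ hc0.le hc1
        nlinarith
      have h4 : X ≤ c' * n := by nlinarith
      have h5 : 0 < c' * n := by positivity
      linarith

end Pool.Agent.H39.TQ
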