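import Pool.Agent.H39.TQ.Itf
import Pool.Agent.H39.TQ.Wab
import Pool.Agent.H24.VP.Nef

/-!
# [H39 TQ Red] THEOREM Q (MP_e49dc9_ag): the threshold; the hypotheses for a multiple of `A`

`exists_ths`: the infimum `s` of the `a / b` with `a A + b D` ample; if it is irrational then `Ths A D s`.
`thr_pow`, `exc_pow`: `A ^ m` and `s / m` instead of `A` and `s`.
-/

set_option autoImplicit false

namespace Pool.Agent.H39.TQ

open Pool.Agent.H54.RV Pool.Agent.H83.TU Pool.Agent.H83.TK Pool.Agent.H24.VP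

variable {k K : Type} [Field k] [Field K] [Algebra k K] {X : Mod k K}
  {T : Cart X → Cart X → Cart X → ℝ} {l : Cart X → ℝ} {c : ℝ} {A D : Cart X} {s : ℝ}

/-- the quotients `a / b`, `b ≥ 1`, with `a A + b D` ample -/
def Quo (A D : Cart X) : Set ℝ := {x | ∃ a b : ℤ, 0 < b ∧ x = a / b ∧ Ample (A ^ a * D ^ b)}

theorem exists_ths [CharZero k] (h : Hyp X) (hr : RR T l c) (hl : ∀ B, Ample B → 0 < l B) (hA : Ample A) :
    ∃ s : ℝ, IsGLB (Quo A D) s ∧ (Irrational s → Ths A D s) := by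
  have hlA := hl A hA
  have hne : (Quo A D).Nonempty := by
    obtain ⟨n, hn⟩ := exists_amp h.var hA D
    refine ⟨_, n, 1, one_pos, rfl, ?_⟩
    rw [zpow_natCast, zpow_one]
    exact hn n le_rfl
  have hbd : BddBelow (Quo A D) := by
    refine ⟨-l D / l A, ?_⟩
    rintro x ⟨a, b, hb, rfl, hW⟩
    have hb' : (0 : ℝ) < b := by exact_mod_cast hb
    have h1 := hl _ hW
    rw [w_l hr 0] at h1
    unfold lp at h1
    rw [div_le_div_iff₀ hlA hb']
    nlinarith
  have hglb := isGLB_csInf hne hbd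
  refine ⟨_, hglb, fun hirr => ⟨hA, hirr, fun a b hb h1 => ?_, fun a b hb h1 h2 => ?_⟩⟩
  · have hb' : (0 : ℝ) < b := by exact_mod_cast hb
    have h2 : sInf (Quo A D) < a / b := by rwa [lt_div_iff₀ hb']
    obtain ⟨x, ⟨a', b', hb1, rfl, hW⟩, hx⟩ := exists_lt_of_csInf_lt hne h2
    have hb1' : (0 : ℝ) < b' := by exact_mod_cast hb1
    rw [div_lt_div_iff₀ hb1' hb'] at hx
    have hx' : a' * b < a * b' := by exact_mod_cast hx
    have h3 : (A ^ a * D ^ b) ^ b'.toNat = (A ^ a' * D ^ b') ^ b.toNat * A ^ (a * b' - a' * b).toNat := by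
      rw [← zpow_natCast, ← zpow_natCast, ← zpow_natCast, Int.toNat_of_nonneg hb1.le, Int.toNat_of_nonneg hb.le,
        Int.toNat_of_nonneg (by omega), mul_zpow, mul_zpow, ← zpow_mul, ← zpow_mul, ← zpow_mul, ← zpow_mul,
        zpow_sub, mul_comm b' b]
      rw [mul_right_comm, mul_comm (A ^ (a' * b)), inv_mul_cancel_right]
    refine ample_of_pow _ b'.toNat (by omega) ?_
    rw [h3]
    exact ample_mul h.var _ _ (ample_pow _ _ (by omega) hW) (ample_pow _ _ (by omega) hA)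
  · have hb' : (0 : ℝ) < b := by exact_mod_cast hb
    have h3 := hglb.1 ⟨a, b, hb, rfl, h2⟩
    rw [le_div_iff₀ hb'] at h3
    linarith

theorem thr_pow (ht : Thr T l c A D s) {m : ℕ} (hm : 1 ≤ m) : Thr T l c (A ^ m) D (s / m) := by
  have hm' : (0 : ℝ) < m := by exact_mod_cast hm
  have hz : ∀ a b : ℤ, (A ^ m) ^ a * D ^ b = A ^ (m * a) * D ^ b := by
    intro a b
    rw [← zpow_natCast, ← zpow_mul]
  have h3 := ht.hr.tri
  refine ⟨⟨ample_pow A m hm ht.hA, ?_, fun a b hb h1 => ?_, fun a b hb h1 => ?_⟩, ht.hr, ht.lpos, ?_⟩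
  · exact ht.irr.div_natCast (by omega)
  · rw [hz]
    refine ht.amp _ _ hb ?_
    rw [div_mul_eq_mul_div, div_lt_iff₀ hm'] at h1
    push_cast
    linarith
  · rw [hz]
    refine ht.out _ _ hb ?_
    rw [div_mul_eq_mul_div, lt_div_iff₀ hm'] at h1
    push_cast
    linarith
  · have h4 := ht.p3
    unfold tp3 at h4 ⊢
    simp only [h3.pow, h3.pow2, h3.pow3]
    rw [← h4]
    field_simp

theorem exc_pow (h3 : Tri T) {m : ℕ} (hm : 1 ≤ m) (h : Exc T (A ^ m) D (s / m)) : Exc T A D s := by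
  have hm' : (0 : ℝ) < m := by exact_mod_cast hm
  obtain ⟨C, h1, h2, h4⟩ := h
  refine ⟨C, h1, h2, fun i => ?_⟩
  have h5 := h4 i
  unfold tpp at h5 ⊢
  simp only [h3.pow, h3.pow2] at h5
  rw [← h5]
  field_simp

end Pool.Agent.H39.TQ
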