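import Pool.Agent.H39.TQ.Itf
import Pool.Agent.H39.TQ.Wab

/-!
# [H39 TQ Rt] THEOREM Q (MP_e49dc9_ag): no lattice points near `p` on the right side

`low_lin`: `h0 W ≥ b l(p) / 2` for large `b`, if `- ε < b (a - s b)` and `a - s b ≤ 1`.  `exists_m`: a number `m` with
`C b ≤ m ^ 3` and `m ^ 2 ≤ c b`.  `right_q`: `c₁ ≤ b (a - s b)` for all ample `W` with large `b`.
-/

set_option autoImplicit false

namespace Pool.Agent.H39.TQ

open Pool.Agent.H54.RV Pool.Agent.H83.TU Pool.Agent.H83.TK Pool.Agent.H24.VP Pool.Agent.H24.TV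

variable {k K : Type} [Field k] [Field K] [Algebra k K] {X : Mod k K}
  {T : Cart X → Cart X → Cart X → ℝ} {l : Cart X → ℝ} {c : ℝ} {A D : Cart X} {s : ℝ}

theorem exists_m {C c' : ℝ} (hc : 0 < c') :
    ∃ b₀ : ℝ, ∀ b : ℝ, b₀ ≤ b → ∃ m : ℕ, C * b ≤ (m : ℝ) ^ 3 ∧ (m : ℝ) ^ 2 ≤ c' * b := by
  obtain ⟨y, hy⟩ : ∃ y, y = max 2 (8 * C / c') := ⟨_, rfl⟩
  have hy2 : 2 ≤ y := by rw [hy]; exact le_max_left _ _
  have hy3 : 8 * C / c' ≤ y := by rw [hy]; exact le_max_right _ _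
  refine ⟨y ^ 2 / c', fun b hb => ?_⟩
  rw [div_le_iff₀ hc] at hb
  have hb0 : 0 ≤ b * c' := le_trans (by positivity) hb
  have hbp : 0 < b := by
    have h1 : 0 < b * c' := lt_of_lt_of_le (by positivity) hb
    exact (pos_iff_pos_of_mul_pos h1).2 hc
  obtain ⟨x, hx⟩ : ∃ x, x = Real.sqrt (b * c') := ⟨_, rfl⟩
  have hxx : x ^ 2 = b * c' := by rw [hx]; exact Real.sq_sqrt hb0
  have hx0 : 0 ≤ x := by rw [hx]; exact Real.sqrt_nonneg _
  have hyx : y ≤ x := by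
    rw [hx]
    exact Real.le_sqrt_of_sq_le hb
  have h1 : (⌊x⌋₊ : ℝ) ≤ x := Nat.floor_le hx0
  have h2 : x < (⌊x⌋₊ : ℝ) + 1 := Nat.lt_floor_add_one x
  have h3 : x / 2 ≤ (⌊x⌋₊ : ℝ) := by linarith
  refine ⟨⌊x⌋₊, ?_, ?_⟩
  · have h4 : (x / 2) ^ 3 ≤ (⌊x⌋₊ : ℝ) ^ 3 := pow_le_pow_left₀ (by linarith) h3 3
    refine le_trans ?_ h4
    have h5 : (x / 2) ^ 3 = x * (b * c') / 8 := by rw [← hxx]; ring
    rw [h5]
    rw [div_le_iff₀ hc] at hy3
    have h6 : y * c' ≤ x * c' := mul_le_mul_of_nonneg_right hyx hc.le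
    have h7 : 8 * C * b ≤ x * c' * b := mul_le_mul_of_nonneg_right (hy3.trans h6) hbp.le
    linarith
  · calc (⌊x⌋₊ : ℝ) ^ 2 ≤ x ^ 2 := pow_le_pow_left₀ (Nat.cast_nonneg _) h1 2
      _ = c' * b := by rw [hxx, mul_comm]

/-- many sections -/
theorem low_lin (ht : Thr T l c A D s) (hα : 0 < tpp T A D s A) (hl : 0 < lp l A D s)
    (hlow : LowQ T l c A D s) :
    ∃ (ε : ℝ) (b₀ : ℤ), 0 < ε ∧ ∀ a b : ℤ, b₀ ≤ b → - ε < b * (a - s * b) → a - s * b ≤ 1 →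
      b * (a - s * b) ≤ 1 → (b : ℝ) * lp l A D s / 2 ≤ h0 (A ^ a * D ^ b) 1 := by
  obtain ⟨C₀, ε₀, b₀, hε, h⟩ := hlow
  obtain ⟨α, hαd⟩ : ∃ α, α = tpp T A D s A := ⟨_, rfl⟩
  obtain ⟨β, hβ⟩ : ∃ β, β = tp T A D s A A := ⟨_, rfl⟩
  obtain ⟨κ, hκ⟩ : ∃ κ, κ = T A A A := ⟨_, rfl⟩
  obtain ⟨L, hL⟩ : ∃ L, L = lp l A D s := ⟨_, rfl⟩
  rw [← hαd] at hα
  rw [← hL] at hl
  obtain ⟨ε, hεd⟩ : ∃ ε, ε = min (min ε₀ 1) (L / (4 * α)) := ⟨_, rfl⟩
  have he0 : 0 < ε := by rw [hεd]; exact lt_min (lt_min hε one_pos) (by positivity)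
  have he1 : ε ≤ ε₀ := by rw [hεd]; exact (min_le_left _ _).trans (min_le_left _ _)
  have he2 : ε ≤ 1 := by rw [hεd]; exact (min_le_left _ _).trans (min_le_right _ _)
  have he3 : ε * (4 * α) ≤ L := by
    have h1 : ε ≤ L / (4 * α) := by rw [hεd]; exact min_le_right _ _
    rwa [le_div_iff₀ (by positivity)] at h1
  obtain ⟨M, hM⟩ : ∃ M, M = |β| + |κ| + |l A| + |c| + |C₀| := ⟨_, rfl⟩
  have hM0 : 0 ≤ M := by rw [hM]; positivity
  obtain ⟨n, hn⟩ := exists_nat_gt (max 1 (4 * M / L))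
  have hn1 : (1 : ℝ) < n := (le_max_left _ _).trans_lt hn
  have hn2 : 4 * M / L < n := (le_max_right _ _).trans_lt hn
  rw [div_lt_iff₀ hl] at hn2
  refine ⟨ε, max b₀ n, he0, fun a b hb h1 h2 h3 => ?_⟩
  have hb1 : b₀ ≤ b := (le_max_left _ _).trans hb
  have hb2 : (n : ℤ) ≤ b := (le_max_right _ _).trans hb
  have hbn : (n : ℝ) ≤ b := by exact_mod_cast hb2
  have hbp : (0 : ℝ) < b := by linarith
  have h4 := h a b hb1 (by linarith) h2
  rw [w_chi ht.hr s ht.p3] at h4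
  rw [← hL]
  obtain ⟨e, he⟩ : ∃ e, e = a - s * b := ⟨_, rfl⟩
  obtain ⟨δ, hδ⟩ : ∃ δ, δ = b * e := ⟨_, rfl⟩
  rw [← hαd, ← hβ, ← hκ, ← hL, ← he, ← hδ] at h4
  rw [← he] at h1 h2 h3
  rw [← hδ] at h1 h3
  have hδ1 : |δ| ≤ 1 := abs_le.2 ⟨by linarith, h3⟩
  have hee : |e| ≤ 1 := by
    have h5 : |δ| = b * |e| := by rw [hδ, abs_mul, abs_of_pos hbp]
    rw [h5] at hδ1
    have h6 : |e| ≤ b * |e| := le_mul_of_one_le_left (abs_nonneg _) (by linarith)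
    linarith
  have k1 : -(L / 8 * b) ≤ (b : ℝ) * δ * α / 2 := by
    have h5 : -ε * (b * α) ≤ δ * (b * α) := mul_le_mul_of_nonneg_right h1.le (by positivity)
    have h6 : ε * (4 * α) * b ≤ L * b := mul_le_mul_of_nonneg_right he3 hbp.le
    nlinarith
  have k2 : -|β| ≤ δ * e * β / 2 := by
    have h5 : |δ * e * β| ≤ |β| := by
      rw [abs_mul, abs_mul]
      have : |δ| * |e| ≤ 1 := by
        calc |δ| * |e| ≤ 1 * 1 := mul_le_mul hδ1 hee (abs_nonneg _) zero_le_one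
          _ = 1 := one_mul 1
      exact mul_le_of_le_one_left (abs_nonneg _) this
    have h6 := neg_abs_le (δ * e * β)
    have h7 := abs_nonneg β
    linarith
  have k3 : -|κ| ≤ e ^ 3 * κ / 6 := by
    have h5 : |e ^ 3 * κ| ≤ |κ| := by
      rw [abs_mul, abs_pow]
      exact mul_le_of_le_one_left (abs_nonneg _) (pow_le_one₀ (abs_nonneg _) hee)
    have h6 := neg_abs_le (e ^ 3 * κ)
    have h7 := abs_nonneg κ
    linarith
  have k4 : -|l A| ≤ e * l A := by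
    have h5 : |e * l A| ≤ |l A| := by
      rw [abs_mul]
      exact mul_le_of_le_one_left (abs_nonneg _) hee
    have h6 := neg_abs_le (e * l A)
    linarith
  have k5 := neg_abs_le c
  have k6 := le_abs_self C₀
  have k7 : 4 * M ≤ b * L := hn2.le.trans (mul_le_mul_of_nonneg_right hbn hl.le)
  rw [hM] at k7
  have k8 := abs_nonneg β
  have k9 := abs_nonneg κ
  have k10 := abs_nonneg (l A)
  have k11 := abs_nonneg c
  have k12 := abs_nonneg C₀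
  have k13 : 0 < b * L := mul_pos hbp hl
  linarith

/-- **no lattice points near `p` on the right side** -/
theorem right_q [CharZero k] (ht : Thr T l c A D s) (hα : 0 < tpp T A D s A) (hl : 0 < lp l A D s)
    (hlow : LowQ T l c A D s) (hstr : StrQ A D s) (hvol : VolB X) :
    ∃ c₁ : ℝ, 0 < c₁ ∧ ∃ b₀ : ℤ, ∀ a b : ℤ, b₀ ≤ b → s * b < a → c₁ ≤ b * (a - s * b) := by
  obtain ⟨ε, b₀, hε, hh⟩ := low_lin ht hα hl hlow
  obtain ⟨C₂, hC₂⟩ := hstr 1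
  obtain ⟨N, cv, c₂, hcv, hc₂, hv⟩ := hvol
  obtain ⟨α, hαd⟩ : ∃ α, α = tpp T A D s A := ⟨_, rfl⟩
  obtain ⟨β, hβ⟩ : ∃ β, β = tp T A D s A A := ⟨_, rfl⟩
  obtain ⟨κ, hκ⟩ : ∃ κ, κ = T A A A := ⟨_, rfl⟩
  obtain ⟨L, hL⟩ : ∃ L, L = lp l A D s := ⟨_, rfl⟩
  rw [← hαd] at hα
  rw [← hL] at hl hh
  obtain ⟨b₁, hb₁⟩ := exists_m (C := C₂) (c' := cv * L / 2) (by positivity)
  obtain ⟨n, hn⟩ := exists_nat_gt (max (max 1 b₁) (max (2 * N / L) (4 * (|β| + |κ|) / (c₂ * L))))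
  have hn1 : (1 : ℝ) < n := ((le_max_left _ _).trans (le_max_left _ _)).trans_lt hn
  have hn2 : b₁ < n := ((le_max_right _ _).trans (le_max_left _ _)).trans_lt hn
  have hn3 : 2 * N / L < n := ((le_max_left _ _).trans (le_max_right _ _)).trans_lt hn
  have hn4 : 4 * (|β| + |κ|) / (c₂ * L) < n := ((le_max_right _ _).trans (le_max_right _ _)).trans_lt hn
  rw [div_lt_iff₀ hl] at hn3
  rw [div_lt_iff₀ (by positivity)] at hn4
  refine ⟨min 1 (c₂ * L / (2 * α)), lt_min one_pos (by positivity), max b₀ n, fun a b hb h1 => ?_⟩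
  have hb1 : b₀ ≤ b := (le_max_left _ _).trans hb
  have hb2 : (n : ℤ) ≤ b := (le_max_right _ _).trans hb
  have hbn : (n : ℝ) ≤ b := by exact_mod_cast hb2
  have hbp : (0 : ℝ) < b := by linarith
  have hbpz : (0 : ℤ) < b := by exact_mod_cast hbp
  rcases le_or_gt 1 ((b : ℝ) * (a - s * b)) with h2 | h2
  · exact (min_le_left _ _).trans h2
  refine (min_le_right _ _).trans ?_
  have he0 : 0 < a - s * b := by linarith
  have hδ0 : 0 < (b : ℝ) * (a - s * b) := mul_pos hbp he0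
  have he1 : a - s * b ≤ 1 := by
    have h3 : a - s * b ≤ b * (a - s * b) := le_mul_of_one_le_left he0.le (by linarith)
    linarith
  have h3 := hh a b hb1 (by linarith) he1 h2.le
  have hW := ht.amp a b hbpz h1
  obtain ⟨m, hm1, hm2⟩ := hb₁ b (by linarith)
  have h4 := hC₂ a b hbpz h1 h2.le m hm1
  have h5 : (m : ℝ) ^ 2 ≤ cv * h0 (A ^ a * D ^ b) 1 := by
    refine hm2.trans ?_
    calc cv * L / 2 * b = cv * (b * L / 2) := by ring
      _ ≤ _ := mul_le_mul_of_nonneg_left h3 hcv.le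
  have h6 : N < h0 (A ^ a * D ^ b) 1 := by
    have h7 : 2 * N < b * L := lt_of_lt_of_le hn3 (mul_le_mul_of_nonneg_right hbn hl.le)
    linarith
  have h7 := hv _ m hW h4 h5 h6
  rw [w_vol ht.hr s ht.p3 a b hW] at h7
  obtain ⟨e, he⟩ : ∃ e, e = a - s * b := ⟨_, rfl⟩
  obtain ⟨δ, hδ⟩ : ∃ δ, δ = b * e := ⟨_, rfl⟩
  rw [← hαd, ← hβ, ← hκ, ← he, ← hδ] at h7
  rw [← he] at he0 he1 hδ0 h2 ⊢
  rw [← hδ] at hδ0 h2 ⊢
  have h8 : c₂ * (b * L / 2) ≤ c₂ * h0 (A ^ a * D ^ b) 1 := mul_le_mul_of_nonneg_left h3 hc₂.le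
  have k2 : δ * e * β / 2 ≤ |β| / 2 := by
    have h5 : |δ * e * β| ≤ |β| := by
      rw [abs_mul, abs_mul, abs_of_pos hδ0, abs_of_pos he0]
      have : δ * e ≤ 1 := by
        calc δ * e ≤ 1 * 1 := mul_le_mul h2.le he1 he0.le zero_le_one
          _ = 1 := one_mul 1
      exact mul_le_of_le_one_left (abs_nonneg _) this
    have h6 := le_abs_self (δ * e * β)
    linarith
  have k3 : e ^ 3 * κ / 6 ≤ |κ| / 2 := by
    have h5 : |e ^ 3 * κ| ≤ |κ| := by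
      rw [abs_mul, abs_pow, abs_of_pos he0]
      exact mul_le_of_le_one_left (abs_nonneg _) (pow_le_one₀ he0.le he1)
    have h6 := le_abs_self (e ^ 3 * κ)
    have h7 := abs_nonneg κ
    linarith
  have k4 : 4 * (|β| + |κ|) ≤ b * (c₂ * L) :=
    hn4.le.trans (mul_le_mul_of_nonneg_right hbn (by positivity))
  rw [div_le_iff₀ (by positivity)]
  -- `c₂ b L / 2 ≤ b δ α / 2 + (|β| + |κ|) / 2`
  have k5 : c₂ * L * b ≤ δ * (2 * α) * b := by
    have h9 : c₂ * (b * L / 2) ≤ b * δ * α / 2 + (|β| + |κ|) / 2 := by linarith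
    nlinarith
  exact le_of_mul_le_mul_right k5 hbp

end Pool.Agent.H39.TQ
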