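import Pool.Agent.H39.TQ.Rt
import Pool.Agent.H39.TQ.Lat
import Pool.Agent.H83.TU.RC

/-!
# [H39 TQ Seq] THEOREM Q (MP_e49dc9_ag), chapter (5): two different fields at neighbouring scales

`seq_q`: there are arbitrarily large `W = A ^ a * D ^ b`, `W' = A ^ a' * D ^ b'` near `p`, of comparable size
(`N W' - W` is ample), with different fields `F`, `F'` of Theorem I.
-/

set_option autoImplicit false

namespace Pool.Agent.H39.TQ

open Pool.Agent.H54.RV Pool.Agent.H83.TU Pool.Agent.H83.TK Pool.Agent.H24.VP Pool.Agent.H24.TV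

variable {k K : Type} [Field k] [Field K] [Algebra k K] {X : Mod k K}
  {T : Cart X → Cart X → Cart X → ℝ} {l : Cart X → ℝ} {c : ℝ} {A D : Cart X} {s : ℝ}

/-- the threshold is badly approximable -/
theorem bad_q [CharZero k] (ht : Thr T l c A D s) (hα : 0 < tpp T A D s A) (hl : 0 < lp l A D s)
    (hlow : LowQ T l c A D s) (hwrg : WrgQ s) (hstr : StrQ A D s) (hvol : VolB X) :
    ∃ c₁ : ℝ, 0 < c₁ ∧ ∃ b₀ : ℤ, ∀ a b : ℤ, b₀ ≤ b → c₁ ≤ b * |a - s * b| := by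
  obtain ⟨c₁, hc1, b₁, h1⟩ := hwrg
  obtain ⟨c₂, hc2, b₂, h2⟩ := right_q ht hα hl hlow hstr hvol
  refine ⟨min c₁ c₂, lt_min hc1 hc2, max 1 (max b₁ b₂), fun a b hb => ?_⟩
  have hb0 : 1 ≤ b := (le_max_left _ _).trans hb
  have hb1 : b₁ ≤ b := ((le_max_left _ _).trans (le_max_right _ _)).trans hb
  have hb2 : b₂ ≤ b := ((le_max_right _ _).trans (le_max_right _ _)).trans hb
  rcases lt_trichotomy (a : ℝ) (s * b) with h3 | h3 | h3
  · have h4 := h1 a b hb1 h3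
    rw [abs_of_neg (by linarith), neg_sub]
    exact (min_le_left _ _).trans h4
  · exfalso
    have h4 : Irrational (s * (b : ℤ)) := ht.irr.mul_intCast (by omega)
    exact h4 ⟨a, by rw [← h3]; simp⟩
  · have h4 := h2 a b hb2 h3
    rw [abs_of_pos (by linarith)]
    exact (min_le_right _ _).trans h4

/-- an additive function on the lattice -/
theorem r_w {R : Cart X → ℤ} (hR : RFun R) (s : ℝ) (a b : ℤ) :
    (R (A ^ a * D ^ b) : ℝ) = b * (R D + s * R A) + (a - s * b) * R A := by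
  have h1 : ∀ (B : Cart X) (n : ℤ), R (B ^ n) = n * R B := by
    intro B n
    obtain ⟨f, hf⟩ : ∃ f : Cart X →* Multiplicative ℤ, ∀ B, (f B).toAdd = R B :=
      ⟨MonoidHom.mk' (fun B => Multiplicative.ofAdd (R B)) fun B B' => by rw [hR.add, ofAdd_add], fun _ => rfl⟩
    rw [← hf, ← hf, map_zpow, toAdd_zpow, smul_eq_mul]
  rw [hR.add, h1, h1]
  push_cast
  ring

/-- the functionals are positive at `p` -/
theorem r_pos (ht : Ths A D s) {R : Cart X → ℤ} (hR : RFun R) : 0 < (R D : ℝ) + s * R A := by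
  have hA : (0 : ℝ) < R A := by exact_mod_cast hR.amp A ht.hA
  have h0 : 0 ≤ (R D : ℝ) + s * R A := by
    by_contra hcon
    push Not at hcon
    obtain ⟨n, hn⟩ := exists_nat_gt (max 1 (R A / -((R D : ℝ) + s * R A)))
    have hn1 : (1 : ℝ) < n := (le_max_left _ _).trans_lt hn
    have hn2 := (le_max_right _ _).trans_lt hn
    rw [div_lt_iff₀ (by linarith)] at hn2
    have h1 := hR.amp _ (ht.amp (⌊s * (n : ℤ)⌋ + 1) n (by exact_mod_cast (by linarith : (0 : ℝ) < n)) (by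
      push_cast
      have := Int.lt_floor_add_one (s * (n : ℤ))
      push_cast at this
      exact this))
    have h2 : (0 : ℝ) < R (A ^ (⌊s * (n : ℤ)⌋ + 1) * D ^ (n : ℤ)) := by exact_mod_cast h1
    rw [r_w hR s] at h2
    have h3 : ((⌊s * (n : ℤ)⌋ + 1 : ℤ) : ℝ) - s * (n : ℤ) ≤ 1 := by
      have := Int.floor_le (s * (n : ℤ))
      push_cast at this ⊢
      linarith
    have h4 : (((⌊s * (n : ℤ)⌋ + 1 : ℤ) : ℝ) - s * (n : ℤ)) * R A ≤ 1 * R A := mul_le_mul_of_nonneg_right h3 hA.le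
    push_cast at h2 h4
    linarith
  rcases h0.lt_or_eq with h1 | h1
  · exact h1
  · exfalso
    apply ht.irr
    refine ⟨-(R D : ℚ) / R A, ?_⟩
    push_cast
    field_simp
    linarith

theorem w_pow (a b a' b' : ℤ) (N : ℕ) :
    (A ^ a' * D ^ b') ^ N * (A ^ a * D ^ b)⁻¹ = A ^ (N * a' - a) * D ^ (N * b' - b) := by
  rw [zpow_sub, zpow_sub, mul_pow, mul_inv, ← zpow_natCast, ← zpow_natCast, ← zpow_mul, ← zpow_mul,
    mul_comm a', mul_comm b']
  exact mul_mul_mul_comm _ _ _ _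

/-- Theorem I at the scale `x` -/
theorem fld_q [CharZero k] (h : Hyp X) (ht : Thr T l c A D s) (hα : 0 < tpp T A D s A)
    (hβ0 : 0 ≤ tp T A D s A A) (hκ0 : 0 < T A A A) (hl : 0 < lp l A D s)
    (hlow : LowQ T l c A D s) (hstr : StrQ A D s) (hfld : FldB h.var h.gen) {B : ℝ} (hB : 1 ≤ B) :
    ∃ (X₁ : ℝ) (g : ℕ), ∀ x ≥ X₁, ∀ a b : ℤ, x ≤ b → 0 < a - s * b → a - s * b ≤ B / x → b ≤ B * x →
      Ample (A ^ a * D ^ b) ∧ 0 < h0 (A ^ a * D ^ b) 1 ∧ ∃ F : IntermediateField k K, Algebra.trdeg F K = 1 ∧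
        Clo F ∧ RF h.var h.gen F (A ^ a * D ^ b) ≤ g ∧ Grw F (A ^ a * D ^ b) g := by
  obtain ⟨C₀, ε₀, b₀, hε, hlo⟩ := hlow
  obtain ⟨α, hαd⟩ : ∃ α, α = tpp T A D s A := ⟨_, rfl⟩
  obtain ⟨β, hβ⟩ : ∃ β, β = tp T A D s A A := ⟨_, rfl⟩
  obtain ⟨κ, hκ⟩ : ∃ κ, κ = T A A A := ⟨_, rfl⟩
  obtain ⟨L, hL⟩ : ∃ L, L = lp l A D s := ⟨_, rfl⟩
  rw [← hαd] at hα
  rw [← hβ] at hβ0
  rw [← hκ] at hκ0
  rw [← hL] at hl
  obtain ⟨th, hth⟩ : ∃ th, th = L / (4 * (B ^ 2 * α + 1)) := ⟨_, rfl⟩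
  have hth0 : 0 < th := by rw [hth]; positivity
  have hth1 : th * (4 * (B ^ 2 * α + 1)) = L := by rw [hth]; field_simp
  obtain ⟨N, cf, g, hcf, hf⟩ := hfld th hth0
  obtain ⟨C₂, hC₂⟩ := hstr (B ^ 2)
  obtain ⟨b₁, hb₁⟩ := exists_m (C := C₂) (c' := cf * L / 2) (by positivity)
  obtain ⟨M, hM⟩ : ∃ M, M = B ^ 2 * β + κ + |c| + |C₀| := ⟨_, rfl⟩
  have hM0 : 0 ≤ M := by rw [hM]; positivity
  refine ⟨max (max (max B b₀) (max b₁ 1)) (max (2 * N / L + 1) (max (4 * M / L) (4 * th * M / L + 1))), g,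
    fun x hx a b hb1 he0 he1 hb2 => ?_⟩
  have hxB : B ≤ x := ((le_max_left _ _).trans ((le_max_left _ _).trans (le_max_left _ _))).trans hx
  have hxb0 : (b₀ : ℝ) ≤ x := ((le_max_right _ _).trans ((le_max_left _ _).trans (le_max_left _ _))).trans hx
  have hxb1 : b₁ ≤ x := ((le_max_left _ _).trans ((le_max_right _ _).trans (le_max_left _ _))).trans hx
  have hx1 : 1 ≤ x := ((le_max_right _ _).trans ((le_max_right _ _).trans (le_max_left _ _))).trans hx
  have hxN : 2 * N / L + 1 ≤ x := ((le_max_left _ _).trans (le_max_right _ _)).trans hx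
  have hxM : 4 * M / L ≤ x := ((le_max_left _ _).trans ((le_max_right _ _).trans (le_max_right _ _))).trans hx
  have hxT : 4 * th * M / L + 1 ≤ x :=
    ((le_max_right _ _).trans ((le_max_right _ _).trans (le_max_right _ _))).trans hx
  have hx0 : 0 < x := by linarith
  have hbp : (0 : ℝ) < b := by linarith
  have hbz : 0 < b := by exact_mod_cast hbp
  have h1 : s * b < a := by linarith
  have hW := ht.amp a b hbz h1
  refine ⟨hW, ?_⟩
  obtain ⟨e, he⟩ : ∃ e, e = a - s * b := ⟨_, rfl⟩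
  obtain ⟨δ, hδ⟩ : ∃ δ, δ = b * e := ⟨_, rfl⟩
  have hδe : (b : ℝ) * (a - s * b) = δ := by rw [hδ, he]
  rw [← he] at he0 he1
  have hδ0 : 0 < δ := by rw [hδ]; exact mul_pos hbp he0
  have hδB : δ ≤ B ^ 2 := by
    rw [hδ]
    calc b * e ≤ (B * x) * (B / x) := mul_le_mul hb2 he1 he0.le (by positivity)
      _ = B ^ 2 := by field_simp
  have hee : e ≤ 1 := by
    refine he1.trans ?_
    rw [div_le_one hx0]
    exact hxB
  -- the number of sections
  have h2 := hlo a b (by exact_mod_cast hxb0.trans hb1) (by rw [hδe]; linarith) (by rw [← he]; exact hee)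
  rw [w_chi ht.hr s ht.p3, ← hαd, ← hβ, ← hκ, ← hL, ← he, ← hδ] at h2
  have hvol := w_vol ht.hr s ht.p3 a b hW
  rw [← hαd, ← hβ, ← hκ, ← he, ← hδ] at hvol
  have hlA : 0 ≤ e * l A := mul_nonneg he0.le (ht.lpos A ht.hA).le
  have hc1 := neg_abs_le c
  have hc2 := le_abs_self C₀
  have hB2 : 0 ≤ B ^ 2 * β := by positivity
  have k7 : 4 * M ≤ b * L := by
    rw [div_le_iff₀ hl] at hxM
    exact hxM.trans (mul_le_mul_of_nonneg_right hb1 hl.le)
  have hh : vol (A ^ a * D ^ b) + b * L / 2 ≤ h0 (A ^ a * D ^ b) 1 := by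
    rw [hvol]
    rw [hM] at k7
    linarith
  have t1 : 0 ≤ b * δ * α / 2 := by positivity
  have t2 : 0 ≤ δ * e * β / 2 := by positivity
  have t3 : 0 ≤ e ^ 3 * κ / 6 := by positivity
  have hv0 : 0 ≤ vol (A ^ a * D ^ b) := by rw [hvol]; linarith
  have hhb : (b : ℝ) * L / 2 ≤ h0 (A ^ a * D ^ b) 1 := by linarith
  -- the volume
  have hvb : vol (A ^ a * D ^ b) ≤ b * (B ^ 2 * α) / 2 + M := by
    have s1 : b * δ * α / 2 ≤ b * (B ^ 2 * α) / 2 := by
      have : b * δ * α ≤ b * B ^ 2 * α :=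
        mul_le_mul_of_nonneg_right (mul_le_mul_of_nonneg_left hδB hbp.le) hα.le
      linarith
    have s2 : δ * e * β / 2 ≤ B ^ 2 * β := by
      have : δ * e * β ≤ B ^ 2 * 1 * β :=
        mul_le_mul_of_nonneg_right (mul_le_mul hδB hee he0.le (by positivity)) hβ0
      linarith
    have s3 : e ^ 3 * κ / 6 ≤ κ := by
      have : e ^ 3 * κ ≤ 1 * κ := mul_le_mul_of_nonneg_right (pow_le_one₀ he0.le hee) hκ0.le
      linarith
    have s4 := abs_nonneg c
    have s5 := abs_nonneg C₀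
    rw [hvol, hM]
    linarith
  have h3 : (1 + th) * vol (A ^ a * D ^ b) < h0 (A ^ a * D ^ b) 1 := by
    have u1 : th * vol (A ^ a * D ^ b) ≤ th * (b * (B ^ 2 * α) / 2 + M) := mul_le_mul_of_nonneg_left hvb hth0.le
    have u2 : th * M < b * L / 4 := by
      have : 4 * th * M / L < x := by linarith
      rw [div_lt_iff₀ hl] at this
      have u3 : x * L ≤ b * L := mul_le_mul_of_nonneg_right hb1 hl.le
      linarith
    have u4 : th * (b * (B ^ 2 * α) / 2) ≤ b * L / 8 := by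
      have u5 : th * (b * (B ^ 2 * α) / 2) = b * (th * (4 * (B ^ 2 * α + 1)) - 4 * th) / 8 := by ring
      rw [u5, hth1]
      have : 0 < b * th := mul_pos hbp hth0
      linarith
    have u6 : 0 < b * L := mul_pos hbp hl
    have u7 : th * (b * (B ^ 2 * α) / 2 + M) = th * (b * (B ^ 2 * α) / 2) + th * M := by ring
    have u8 : (1 + th) * vol (A ^ a * D ^ b) = vol (A ^ a * D ^ b) + th * vol (A ^ a * D ^ b) := by ring
    rw [u7] at u1
    rw [u8]
    linarith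
  obtain ⟨m, hm1, hm2⟩ := hb₁ b (by linarith)
  refine ⟨?_, ?_⟩
  · have u6 : 0 < b * L := mul_pos hbp hl
    have u7 : (0 : ℝ) < h0 (A ^ a * D ^ b) 1 := by linarith
    exact_mod_cast u7
  refine hf _ m hW (hC₂ a b hbz h1 (by rw [hδe]; exact hδB) m hm1) (hm2.trans ?_) ?_ h3
  · calc cf * L / 2 * b = cf * (b * L / 2) := by ring
      _ ≤ _ := mul_le_mul_of_nonneg_left hhb hcf.le
  · have : 2 * N / L < x := by linarith
    rw [div_lt_iff₀ hl] at this
    have u3 : x * L ≤ b * L := mul_le_mul_of_nonneg_right hb1 hl.le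
    linarith

/-- **two different fields at neighbouring scales** -/
theorem seq_q [CharZero k] [IsAlgClosed k] (h : Hyp X) (ht : Thr T l c A D s) (hα : 0 < tpp T A D s A)
    (hβ0 : 0 ≤ tp T A D s A A) (hκ0 : 0 < T A A A) (hl : 0 < lp l A D s)
    (hlow : LowQ T l c A D s) (hwrg : WrgQ s) (hstr : StrQ A D s) (hvol : VolB X) (hfld : FldB h.var h.gen) :
    ∃ (c₀ : ℝ) (g N : ℕ), 0 < c₀ ∧ 1 ≤ N ∧ ∀ b₁ : ℤ, ∃ (a b a' b' : ℤ) (F F' : IntermediateField k K),
      b₁ ≤ b ∧ 0 < b ∧ 0 < a - s * b ∧ c₀ ≤ b * (a - s * b) ∧ Ample (A ^ a * D ^ b) ∧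
      0 < h0 (A ^ a * D ^ b) 1 ∧ Ample ((A ^ a' * D ^ b') ^ N * (A ^ a * D ^ b)⁻¹) ∧ Algebra.trdeg F K = 1 ∧ Algebra.trdeg F' K = 1 ∧
      Clo F ∧ Clo F' ∧ F ≠ F' ∧ Grw F (A ^ a * D ^ b) g ∧ Grw F' (A ^ a' * D ^ b') g := by
  obtain ⟨c₁, hc1, b₀, hbad⟩ := bad_q ht hα hl hlow hwrg hstr hvol
  obtain ⟨B, hB, X₀, hX0, hlat⟩ := lat ht.irr hc1 hbad
  obtain ⟨X₁, g, hF⟩ := fld_q h ht hα hβ0 hκ0 hl hlow hstr hfld hB
  obtain ⟨N, hN⟩ := exists_nat_gt (2 * B ^ 2)
  have hB2 : B ≤ B ^ 2 := by nlinarith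
  have hN1 : 1 ≤ N := by
    have h1 : (0 : ℝ) < N := by nlinarith
    exact_mod_cast h1
  refine ⟨1 / B, g, N, by positivity, hN1, fun b₁ => ?_⟩
  obtain ⟨Y, hY⟩ : ∃ Y, Y = max (max X₀ X₁) b₁ := ⟨_, rfl⟩
  have hY0 : X₀ ≤ Y := by rw [hY]; exact (le_max_left _ _).trans (le_max_left _ _)
  have hY1 : X₁ ≤ Y := by rw [hY]; exact (le_max_right _ _).trans (le_max_left _ _)
  have hY2 : (b₁ : ℝ) ≤ Y := by rw [hY]; exact le_max_right _ _
  have hYp : 1 ≤ Y := hX0.trans hY0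
  have hscale : ∀ j : ℕ, Y ≤ 2 ^ j * Y := fun j => le_mul_of_one_le_left (by linarith) (one_le_pow₀ (by norm_num))
  choose a b hb1 hb2 he1 he2 using fun j : ℕ => hlat (2 ^ j * Y) (hY0.trans (hscale j))
  have hYj : ∀ j : ℕ, 0 < 2 ^ j * Y := fun j => by positivity
  have hbp : ∀ j, (0 : ℝ) < b j := fun j => (hYj j).trans_le (hb1 j)
  have hep : ∀ j, 0 < a j - s * b j := fun j => lt_of_lt_of_le (by have := hYj j; positivity) (he1 j)
  have hall := fun j : ℕ => hF (2 ^ j * Y) (hY1.trans (hscale j)) (a j) (b j) (hb1 j) (hep j) (he2 j) (hb2 j)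
  choose hW hW0 F hF1 hF2 hF3 hF4 using hall
  have hne : ∃ j, F j ≠ F (j + 1) := by
    by_contra hcon
    push Not at hcon
    have hconst : ∀ j, F j = F 0 := by
      intro j
      induction j with
      | zero => rfl
      | succ j ih => rw [← hcon j, ih]
    have hR := rfun_rf h.var h.gen (uf_all h.var) (F 0) (hF1 0)
    have hpos := r_pos (s := s) ht.toThs hR
    obtain ⟨r, hr⟩ : ∃ r : ℝ, r = (RF h.var h.gen (F 0) D : ℝ) + s * RF h.var h.gen (F 0) A := ⟨_, rfl⟩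
    rw [← hr] at hpos
    obtain ⟨j, hj⟩ := pow_unbounded_of_one_lt ((g : ℝ) / r) (by norm_num : (1 : ℝ) < 2)
    rw [div_lt_iff₀ hpos] at hj
    have h1 := hF3 j
    rw [hconst j] at h1
    have h2 : (RF h.var h.gen (F 0) (A ^ a j * D ^ b j) : ℝ) ≤ g := by exact_mod_cast h1
    rw [r_w hR s, ← hr] at h2
    have hRA : (0 : ℝ) < RF h.var h.gen (F 0) A := by exact_mod_cast hR.amp A ht.hA
    have h3 : 0 < (a j - s * b j) * RF h.var h.gen (F 0) A := mul_pos (hep j) hRA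
    have h4 : 2 ^ j * r ≤ b j * r := by
      apply mul_le_mul_of_nonneg_right _ hpos.le
      refine le_trans ?_ (hb1 j)
      exact le_mul_of_one_le_right (by positivity) hYp
    linarith
  obtain ⟨j, hj⟩ := hne
  refine ⟨a j, b j, a (j + 1), b (j + 1), F j, F (j + 1), ?_, by exact_mod_cast hbp j, hep j, ?_, hW j, hW0 j, ?_, hF1 j,
    hF1 (j + 1), hF2 j, hF2 (j + 1), hj, hF4 j, hF4 (j + 1)⟩
  · have : (b₁ : ℝ) ≤ b j := hY2.trans ((hscale j).trans (hb1 j))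
    exact_mod_cast this
  · have hBp : 0 < B := by linarith
    have hq := hYj j
    calc 1 / B = (2 ^ j * Y) * (1 / (B * (2 ^ j * Y))) := by field_simp
      _ ≤ b j * (a j - s * b j) := mul_le_mul (hb1 j) (he1 j) (by positivity) (hbp j).le
  · rw [w_pow]
    have hBp : 0 < B := by linarith
    have hq := hYj j
    obtain ⟨z, hz⟩ : ∃ z, z = 2 ^ j * Y := ⟨_, rfl⟩
    have hz' : 2 ^ (j + 1) * Y = 2 * z := by rw [hz, pow_succ]; ring
    have i1 := hb2 j
    have i2 := hb1 (j + 1)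
    have i3 := he2 j
    have i4 := he1 (j + 1)
    rw [← hz] at i1 i3 hq
    rw [hz'] at i2 i4
    apply ht.amp
    · have : (0 : ℝ) < N * b (j + 1) - b j := by
        have i5 : N * (2 * z) ≤ N * b (j + 1) := mul_le_mul_of_nonneg_left i2 (Nat.cast_nonneg _)
        have i6 : B * z < N * (2 * z) := by nlinarith
        linarith
      exact_mod_cast this
    · push_cast
      have i5 : N * (1 / (B * (2 * z))) ≤ N * (a (j + 1) - s * b (j + 1)) :=
        mul_le_mul_of_nonneg_left i4 (Nat.cast_nonneg _)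
      have i6 : B / z < N * (1 / (B * (2 * z))) := by
        rw [mul_one_div, div_lt_div_iff₀ hq (by positivity)]
        have : B * (B * (2 * z)) = 2 * B ^ 2 * z := by ring
        rw [this]
        exact mul_lt_mul_of_pos_right hN hq
      linarith

end Pool.Agent.H39.TQ
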