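import Pool.Agent.H39.TQ.Asm
import Pool.Agent.H39.TQ.Red
import Pool.Agent.H39.TQ.Nn
import Pool.Agent.H39.TQ.Fam
import Pool.Agent.H20.TQ.Trl
import Pool.Agent.H20.TQ.Wrg
import Pool.Agent.H20.TQ.LowQ
import Pool.Agent.H36.TQ.Str
import Pool.Agent.H41.TQ.Dsj
import Pool.Agent.H41.TQ.Prm
import Pool.Agent.H83.TQ.Geo
import Pool.Agent.H24.VP.Exi

/-!
# [H39 TQ Thm] THEOREM Q (MP_e49dc9_ag): the first clause

`Fam T A D s F`: the exception, with disjointness.  `fam_of`: `Exc` implies `Fam`.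
-/

set_option autoImplicit false

namespace Pool.Agent.H39.TQ

open Pool.Agent.H54.RV Pool.Agent.H83.TU Pool.Agent.H83.TK Pool.Agent.H24.VP Pool.Agent.H24.TV

variable {k K : Type} [Field k] [Field K] [Algebra k K] {X : Mod k K}
  {T : Cart X → Cart X → Cart X → ℝ} {l : Cart X → ℝ} {c : ℝ} {A D : Cart X} {s : ℝ}

theorem volB_of [IsAlgClosed k] [CharZero k] (h : Hyp X) : VolB X := by
  obtain ⟨N, c, c₂, h1, h2, h3⟩ := Pool.Agent.H83.TQ.volB h
  exact ⟨N, c, c₂, h1, h2, fun D m hD hS hm hN => h3 D m hD hS (by exact_mod_cast hN) hm⟩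

theorem fldB_of [IsAlgClosed k] [CharZero k] (h : Hyp X) : FldB h.var h.gen := by
  intro th hth
  obtain ⟨N, g, c, h1, h3⟩ := Pool.Agent.H83.TQ.fldB h th hth
  exact ⟨N, c, g, h1, fun D m hD hS hm hN hv => h3 D m hD hS (by exact_mod_cast hN) hm hv⟩

theorem prmB_of [IsAlgClosed k] [CharZero k] (h : Hyp X) (hr : RR T l c) : PrmB T := by
  refine ⟨8, fun D F F' g g' hD h0' hF hF' hc hc' hne hg hg' => ?_⟩
  obtain ⟨n₁, hn₁⟩ := hg
  obtain ⟨n₂, hn₂⟩ := hg'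
  have h1 : ((g + g' : ℕ) : ℝ) ≤ g + g' + 1 := by
    push_cast
    linarith
  have h2 : (0 : ℝ) ≤ ((g + g' : ℕ) : ℝ) := Nat.cast_nonneg _
  rcases Pool.Agent.H41.TQ.prm_bound h hr D hD h0' F F' hF hF' hc hc' hne g g' (max n₁ n₂)
    (fun n hn => hn₁ n ((le_max_left _ _).trans hn)) (fun n hn => hn₂ n ((le_max_right _ _).trans hn)) with h3 | h3
  · left
    refine h3.trans ?_
    exact mul_le_mul_of_nonneg_left (pow_le_pow_left₀ h2 h1 3) (by norm_num)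
  · right
    refine h3.mono ?_
    rintro η ⟨P, hP, S, hS, hT⟩
    refine ⟨P, hP, S, hS, hT.trans ?_⟩
    refine (pow_le_pow_left₀ h2 h1 2).trans ?_
    have h4 : (0 : ℝ) ≤ (g + g' + 1) ^ 2 := by positivity
    linarith

/-- the exception: such a family, and `s` is the larger root of the quadratic polynomial `(D + x A) . (D + x A) . F 0` -/
structure Fam (T : Cart X → Cart X → Cart X → ℝ) (A D : Cart X) (s : ℝ) (F : ℕ → Cart X) : Prop extends DFam T F where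
  pos : 0 < T A A (F 0)
  quad : T D D (F 0) + 2 * s * T A D (F 0) + s ^ 2 * T A A (F 0) = 0
  lar : 0 < T A D (F 0) + s * T A A (F 0)

theorem fam_of [CharZero k] [T0Space X.P] (h : Hyp X) (hr : RR T l c) (ht : Ths A D s) (hE : Exc T A D s) :
    ∃ F, Fam T A D s F := by
  obtain ⟨C, ⟨⟨P, hP, hS⟩, hnum⟩, h2, h3⟩ := hE
  have h4 := pos_prm h hr ht.hA ht.hA (P 0) (hS 0)
  refine ⟨C, ⟨⟨fun i => (P i).η, fun i => ⟨⟨P i, rfl⟩, hS i⟩, fun i j hij x =>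
    Pool.Agent.H41.TQ.disj h hr ht.hA (P i) (P j) (hS i) (hS j) (fun h5 => hij (hP i j h5)) (h2 i j) x⟩, hnum,
    fun i j U => ?_⟩, h4, h3 0, ?_⟩
  · rw [← hr.tri.s23, ← hr.tri.s12]
    exact h2 i j U
  · have h5 := tp_nn ht hr.tri A (C 0) fun B hB => (pos_prm h hr hB ht.hA (P 0) (hS 0)).le
    unfold tp at h5
    rw [hr.tri.s12 D A] at h5
    refine lt_of_le_of_ne h5 fun h6 => ?_
    obtain ⟨x, hx⟩ := t_int hr h.amp A D (C 0)
    obtain ⟨y, hy⟩ := t_int hr h.amp A A (C 0)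
    rw [hy] at h4
    rw [hx, hy] at h6
    refine ht.irr ⟨-x / y, ?_⟩
    push_cast
    rw [div_eq_iff h4.ne']
    linarith

/-- **THEOREM Q**: an irrational threshold gives the exception -/
theorem exc_q [IsAlgClosed k] [CharZero k] [T0Space X.P] (h : Hyp X) (hr : RR T l c)
    (hl : ∀ B, Ample B → 0 < l B) {ρ : ℕ} (ν : Cart X →* Multiplicative (Fin ρ → ℤ)) (hν : ∀ D, ν D = 1 → NumZ D)
    (ht : Ths A D s) : Exc T A D s := by
  have ht' : Thr T l c A D s := ⟨ht, hr, hl, Pool.Agent.H20.TQ.big_q h hr ht⟩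
  have hpp := Pool.Agent.H36.TQ.tppA_pos h ht'
  have hlp := Pool.Agent.H36.TQ.lp_pos h ht'
  have hlow := Pool.Agent.H20.TQ.low_q h ht' hpp
  exact main_q h ht' hpp (tp_nn ht hr.tri A A fun B hB => (pos_amp h hr hB ht.hA ht.hA).le)
    (pos_amp h hr ht.hA ht.hA ht.hA) hlp hlow (Pool.Agent.H20.TQ.wrong_q h ht' hpp hlp hlow)
    (Pool.Agent.H36.TQ.star_q h ν hν ht') (volB_of h) (fldB_of h) (prmB_of h hr) (Pool.Agent.H36.TQ.fin_q h ν hν ht')

/-- **THEOREM Q, first clause** -/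
theorem thm_q [IsAlgClosed k] [CharZero k] [T0Space X.P] (h : Hyp X) (hr : RR T l c)
    (hl : ∀ B, Ample B → 0 < l B) {ρ : ℕ} (ν : Cart X →* Multiplicative (Fin ρ → ℤ)) (hν : ∀ D, ν D = 1 → NumZ D)
    (hA : Ample A) (D : Cart X) :
    ∃ s : ℝ, IsGLB (Quo A D) s ∧ ((∃ q : ℚ, s = q) ∨ ∃ F, Fam T A D s F) := by
  obtain ⟨s, hs, hirr⟩ := exists_ths (D := D) h hr hl hA
  refine ⟨s, hs, ?_⟩
  by_cases hq : ∃ q : ℚ, s = q
  · exact Or.inl hq
  right
  have ht := hirr (by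
    rintro ⟨q, hq'⟩
    exact hq ⟨q, hq'.symm⟩)
  exact fam_of h hr ht (exc_q h hr hl ν hν ht)

end Pool.Agent.H39.TQ
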